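import Mathlib

/-!
Canonical Ramsey property of three equally spaced collinear points, part 1:
from good colourings of all Euclidean spaces to a spreading-invariant relation on integer words.
-/

set_option autoImplicit false

namespace Pool.Agent.H42Z.Can

open Filter

/-- exactly-two-colours condition on the three equalities -/
def Gd (p q r : Prop) : Prop := ¬ (p ∧ q) ∧ (p ∨ q ∨ r)

theorem Gd.lim {p q r : ℕ → Prop} (h : ∀ᶠ n in (hyperfilter ℕ : Filter ℕ), Gd (p n) (q n) (r n)) :
    Gd (∀ᶠ n in (hyperfilter ℕ : Filter ℕ), p n) (∀ᶠ n in (hyperfilter ℕ : Filter ℕ), q n)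
      (∀ᶠ n in (hyperfilter ℕ : Filter ℕ), r n) := by
  constructor
  · rintro ⟨h1, h2⟩
    obtain ⟨n, hn, h3, h4⟩ := (h.and (h1.and h2)).exists
    exact hn.1 ⟨h3, h4⟩
  · rw [← Ultrafilter.eventually_or, ← Ultrafilter.eventually_or]
    exact h.mono fun n hn => hn.2

/-- squared norm -/
def nsq (x : ℕ →₀ ℤ) : ℤ := x.sum fun _ a => a ^ 2

theorem nsq_add_single (x : ℕ →₀ ℤ) (p : ℕ) (hp : p ∉ x.support) (a : ℤ) :
    nsq (x + Finsupp.single p a) = nsq x + a ^ 2 := by
  unfold nsq
  rw [Finsupp.sum_add_index_of_disjoint, Finsupp.sum_single_index (by simp)]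
  exact Finset.disjoint_of_subset_right Finsupp.support_single_subset
    (Finset.disjoint_singleton_right.2 hp)

/-- the abstract structure on finitely supported vectors -/
structure VecRel (E : (ℕ →₀ ℤ) → (ℕ →₀ ℤ) → Prop) : Prop where
  refl : ∀ x, E x x
  symm : ∀ x y, E x y → E y x
  trans : ∀ x y z, E x y → E y z → E x z
  line : ∀ m d, nsq d = 48 → Gd (E (m - d) m) (E m (m + d)) (E (m - d) (m + d))

/-- embedding in Euclidean space -/
noncomputable def emb (n : ℕ) (x : ℕ →₀ ℤ) : EuclideanSpace ℝ (Fin n) :=
  WithLp.toLp 2 fun i => (x i : ℝ) / Real.sqrt 48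

theorem emb_sub (n : ℕ) (x y : ℕ →₀ ℤ) : emb n (x - y) = emb n x - emb n y := by
  ext i; simp [emb, sub_div]

theorem emb_add (n : ℕ) (x y : ℕ →₀ ℤ) : emb n (x + y) = emb n x + emb n y := by
  ext i; simp [emb, add_div]

theorem norm_emb (n : ℕ) (d : ℕ →₀ ℤ) (hd : nsq d = 48) (hn : d.support ⊆ Finset.range n) :
    ‖emb n d‖ = 1 := by
  have h1 : ∑ i ∈ Finset.range n, (d i) ^ 2 = 48 := by
    rw [← hd, nsq, Finsupp.sum_of_support_subset d hn _ (by simp)]
  have h2 : ∑ i ∈ Finset.range n, ((d i : ℝ)) ^ 2 = 48 := by exact_mod_cast h1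
  rw [EuclideanSpace.norm_eq, Real.sqrt_eq_one]
  simp only [emb, Real.norm_eq_abs, sq_abs, div_pow]
  rw [Real.sq_sqrt (by norm_num), ← Finset.sum_div,
    Fin.sum_univ_eq_sum_range (fun i => ((d i : ℝ)) ^ 2) n, h2]
  norm_num

theorem exists_vecRel (h : ∀ n : ℕ, ∃ χ : EuclideanSpace ℝ (Fin n) → ℝ,
    ∀ a b c : EuclideanSpace ℝ (Fin n), dist a b = 1 → dist b c = 1 → dist a c = 2 →
      Gd (χ a = χ b) (χ b = χ c) (χ a = χ c)) : ∃ E, VecRel E := by
  choose χ hχ using h
  refine ⟨fun x y => ∀ᶠ n in (hyperfilter ℕ : Filter ℕ), χ n (emb n x) = χ n (emb n y), ?_, ?_, ?_, ?_⟩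
  · exact fun x => Eventually.of_forall fun n => rfl
  · exact fun x y h => h.mono fun n hn => hn.symm
  · exact fun x y z h1 h2 => (h1.and h2).mono fun n hn => hn.1.trans hn.2
  · intro m d hd
    apply Gd.lim
    have : ∀ᶠ n in atTop, d.support ⊆ Finset.range n := by
      filter_upwards [eventually_gt_atTop (d.support.sup id)] with n hn i hi
      exact Finset.mem_range.2 (lt_of_le_of_lt (Finset.le_sup (f := id) hi) hn)
    filter_upwards [Nat.hyperfilter_le_atTop this] with n hn
    have h1 := norm_emb n d hd hn
    apply hχ
    · rw [emb_sub, dist_eq_norm, sub_sub_cancel_left, norm_neg, h1]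
    · rw [emb_add, dist_eq_norm, sub_add_cancel_left, norm_neg, h1]
    · rw [emb_sub, emb_add, dist_eq_norm]
      have : emb n m - emb n d - (emb n m + emb n d) = (-2 : ℝ) • emb n d := by module
      rw [this, norm_smul, h1]
      norm_num

/-- iterated ultrafilter limit along the columns -/
def R (E : (ℕ →₀ ℤ) → (ℕ →₀ ℤ) → Prop) : List ℤ → List ℤ → (ℕ →₀ ℤ) → (ℕ →₀ ℤ) → Prop
  | [], [], x, y => E x y
  | a :: u, b :: v, x, y => ∀ᶠ p in (hyperfilter ℕ : Filter ℕ),
      R E u v (x + Finsupp.single p a) (y + Finsupp.single p b)
  | _, _, _, _ => False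

/-- the abstract structure on words -/
structure WordRel (S : List ℤ → List ℤ → Prop) : Prop where
  refl : ∀ u, S u u
  symm : ∀ u v, S u v → S v u
  trans : ∀ u v w, S u v → S v w → S u w
  del : ∀ u u' v v', u.length = u'.length → (S (u ++ 0 :: v) (u' ++ 0 :: v') ↔ S (u ++ v) (u' ++ v'))
  line : ∀ l : List (ℤ × ℤ), (l.map fun c => c.2 ^ 2).sum = 48 →
    Gd (S (l.map fun c => c.1 - c.2) (l.map fun c => c.1))
      (S (l.map fun c => c.1) (l.map fun c => c.1 + c.2))
      (S (l.map fun c => c.1 - c.2) (l.map fun c => c.1 + c.2))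

theorem exists_wordRel {E : (ℕ →₀ ℤ) → (ℕ →₀ ℤ) → Prop} (h : VecRel E) : ∃ S, WordRel S := by
  refine ⟨fun u v => R E u v 0 0, ?_, ?_, ?_, ?_, ?_⟩
  · have : ∀ u x, R E u u x x := by
      intro u
      induction u with
      | nil => exact h.refl
      | cons a u ih => exact fun x => Eventually.of_forall fun p => ih _
    exact fun u => this u 0
  · have : ∀ u v x y, R E u v x y → R E v u y x := by
      intro u
      induction u with
      | nil =>
        intro v x y
        cases v with
        | nil => exact h.symm x y
        | cons b v => exact fun h => h.elim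
      | cons a u ih =>
        intro v x y
        cases v with
        | nil => exact fun h => h.elim
        | cons b v => exact fun h => Eventually.mono h fun p hp => ih _ _ _ hp
    exact fun u v => this u v 0 0
  · have : ∀ u v w x y z, R E u v x y → R E v w y z → R E u w x z := by
      intro u
      induction u with
      | nil =>
        intro v w x y z
        cases v with
        | nil =>
          cases w with
          | nil => exact h.trans x y z
          | cons c w => exact fun _ h => h.elim
        | cons b v => exact fun h => h.elim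
      | cons a u ih =>
        intro v w x y z
        cases v with
        | nil => exact fun h => h.elim
        | cons b v =>
          cases w with
          | nil => exact fun _ h => h.elim
          | cons c w =>
            exact fun h1 h2 => Eventually.mono (Eventually.and h1 h2) fun p hp => ih _ _ _ _ _ hp.1 hp.2
    exact fun u v w => this u v w 0 0 0
  · have : ∀ u u' v v' x y, u.length = u'.length →
        (R E (u ++ 0 :: v) (u' ++ 0 :: v') x y ↔ R E (u ++ v) (u' ++ v') x y) := by
      intro u
      induction u with
      | nil =>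
        intro u' v v' x y hl
        cases u' with
        | nil => simp [R]
        | cons b u' => simp at hl
      | cons a u ih =>
        intro u' v v' x y hl
        cases u' with
        | nil => simp at hl
        | cons b u' =>
          simp only [List.cons_append, R]
          exact eventually_congr (Eventually.of_forall fun p => ih _ _ _ _ _ (by simpa using hl))
    exact fun u u' v v' hl => this u u' v v' 0 0 hl
  · have : ∀ (l : List (ℤ × ℤ)) (m d : ℕ →₀ ℤ), nsq d + (l.map fun c => c.2 ^ 2).sum = 48 →
        Gd (R E (l.map fun c => c.1 - c.2) (l.map fun c => c.1) (m - d) m)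
          (R E (l.map fun c => c.1) (l.map fun c => c.1 + c.2) m (m + d))
          (R E (l.map fun c => c.1 - c.2) (l.map fun c => c.1 + c.2) (m - d) (m + d)) := by
      intro l
      induction l with
      | nil => intro m d hd; exact h.line m d (by simpa using hd)
      | cons c l ih =>
        intro m d hd
        simp only [List.map_cons, R]
        apply Gd.lim
        have : ∀ᶠ p in (hyperfilter ℕ : Filter ℕ), p ∉ d.support :=
          hyperfilter_le_cofinite (d.support.eventually_cofinite_notMem)
        filter_upwards [this] with p hp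
        have h1 := ih (m + Finsupp.single p c.1) (d + Finsupp.single p c.2) (by
          rw [nsq_add_single _ _ hp]
          simp only [List.map_cons, List.sum_cons] at hd
          linarith)
        have e1 : m + Finsupp.single p c.1 - (d + Finsupp.single p c.2)
            = m - d + Finsupp.single p (c.1 - c.2) := by
          rw [Finsupp.single_sub]; abel
        have e2 : m + Finsupp.single p c.1 + (d + Finsupp.single p c.2)
            = m + d + Finsupp.single p (c.1 + c.2) := by
          rw [Finsupp.single_add]; abel
        rwa [e1, e2] at h1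
    intro l hl
    have := this l 0 0 (by simpa [nsq] using hl)
    simpa using this

end Pool.Agent.H42Z.Can
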