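import Pool.Agent.H42Z.CanWords
import Pool.Agent.H42Z.CanData

/-!
Part 3: the finite core is contradictory (reverse unit propagation certificate).
-/

set_option autoImplicit false

namespace Pool.Agent.H42Z.Can

open Pool.Agent.H42Z.Rup

/-- point table -/
def pt (i : ℕ) : Pt :=
  (Nat.shiftRight ptsN (28 * i) % 128, Nat.shiftRight ptsN (28 * i + 7) % 128,
    Nat.shiftRight ptsN (28 * i + 14) % 128, Nat.shiftRight ptsN (28 * i + 21) % 128)

/-- variable of a pair -/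
def var (i j : ℕ) : ℕ := if i < j then i * 128 + j else j * 128 + i

/-- pattern test -/
def isL (x y z : Pt) : Bool :=
  let H' := x.2.2.2 - y.2.2.2
  let H := z.2.2.2 - y.2.2.2
  let D' := x.2.2.1 - y.2.2.1 - H
  let D := z.2.2.1 - y.2.2.1 - H'
  let P := z.1 - y.1
  let a := y.1
  let b := z.2.1
  let c := y.2.2.1
  let d := y.2.2.2
  decide (a < 80 ∧ b < 80 ∧ c < 80 ∧ d < 80 ∧ P + D + D' + 4 * (H + H') = 12 ∧ (H = 0 ∨ H' = 0) ∧
    x.1 = a ∧ x.2.1 = P + b ∧ x.2.2.1 = D' + c + H ∧ x.2.2.2 = H' + d ∧ y.2.1 = b + D + D' ∧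
    z.1 = a + P ∧ z.2.2.1 = D + c + H' ∧ z.2.2.2 = H + d)

theorem isL_sound {Q : Pt → Pt → Prop} (h : BoxRel Q) (x y z : Pt) (hl : isL x y z = true) :
    Gd (Q x y) (Q y z) (Q x z) := by
  obtain ⟨x1, x2, x3, x4⟩ := x
  obtain ⟨y1, y2, y3, y4⟩ := y
  obtain ⟨z1, z2, z3, z4⟩ := z
  simp only [isL, decide_eq_true_eq] at hl
  obtain ⟨h1, h2, h3, h4, h5, h6, e1, e2, e3, e4, e5, e6, e7, e8⟩ := hl
  have := h.line _ _ _ _ _ _ _ _ _ h1 h2 h3 h4 h5 h6
  rw [← e2, ← e3, ← e4, ← e5, ← e6, ← e7, ← e8] at this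
  rw [e1]
  exact this

/-- the test for axioms -/
def okAx (e c : ℕ) : Bool :=
  force (e % 8) fun t => force (e / 8 % 128) fun i => force (e / 8 / 128 % 128) fun j =>
  force (e / 8 / 128 / 128 % 128) fun k =>
  force (2 * var i j) fun p => force (2 * var j k) fun q => force (2 * var i k) fun r =>
  if t = 6 then Nat.beq c (p + 1 + 32768 * (q + 1 + 32768 * r)) && decide (r ≠ 0)
  else isL (pt i) (pt j) (pt k) &&
    if t = 0 then Nat.beq c (p + 32768 * (q + 32768 * r)) && decide (r ≠ 0)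
    else if t = 1 then Nat.beq c (p + 1 + 32768 * (q + 1))
    else if t = 2 then Nat.beq c (p + 1 + 32768 * (r + 1))
    else if t = 3 then Nat.beq c (q + 1 + 32768 * (r + 1))
    else if t = 4 then Nat.beq i j && Nat.beq c (q + 1)
    else Nat.beq i k && Nat.beq c (p + 1)

/-- truth of literals -/
def tvQ (Q : Pt → Pt → Prop) (l : ℕ) : Prop := Q (pt (l / 2 / 128)) (pt (l / 2 % 128)) ↔ l % 2 = 0

theorem tvQ_ex (Q : Pt → Pt → Prop) (l : ℕ) (h : tvQ Q l) : ¬ tvQ Q (neg l) := by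
  unfold tvQ at *
  have e : neg l = l + 1 - 2 * (l % 2) := rfl
  have e1 : neg l / 2 = l / 2 := by omega
  have e2 : neg l % 2 = 0 ↔ ¬ l % 2 = 0 := by omega
  rw [e1, e2]
  tauto

theorem valid1 (tv : ℕ → Prop) (a : ℕ) (ha : a < 32768) (h0 : a ≠ 0) (h : tv a) : Valid tv a :=
  Valid.here _ h0 (by rwa [Nat.mod_eq_of_lt ha])

theorem valid_cons (tv : ℕ → Prop) (a c : ℕ) (ha : a < 32768) (h0 : c ≠ 0) (h : tv a ∨ Valid tv c) :
    Valid tv (a + 32768 * c) := by
  rcases h with h | h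
  · exact Valid.here _ (by omega) (by rwa [show (a + 32768 * c) % 32768 = a by omega])
  · exact Valid.there _ (by rwa [show (a + 32768 * c) / 32768 = c by omega])

theorem okAx_valid {Q : Pt → Pt → Prop} (h : BoxRel Q) (e c : ℕ) (hok : okAx e c = true) :
    Valid (tvQ Q) c := by
  have hv : ∀ i j, i < 128 → j < 128 →
      (Q (pt (var i j / 128)) (pt (var i j % 128)) ↔ Q (pt i) (pt j)) ∧ var i j < 16384 := by
    intro i j hi hj
    unfold var
    split_ifs
    · rw [show (i * 128 + j) / 128 = i by omega, show (i * 128 + j) % 128 = j by omega]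
      exact ⟨Iff.rfl, by omega⟩
    · rw [show (j * 128 + i) / 128 = j by omega, show (j * 128 + i) % 128 = i by omega]
      exact ⟨⟨h.symm _ _, h.symm _ _⟩, by omega⟩
  have hp : ∀ i j, i < 128 → j < 128 → (tvQ Q (2 * var i j) ↔ Q (pt i) (pt j)) ∧
      (tvQ Q (2 * var i j + 1) ↔ ¬ Q (pt i) (pt j)) := by
    intro i j hi hj
    unfold tvQ
    rw [show 2 * var i j / 2 = var i j by omega, show (2 * var i j + 1) / 2 = var i j by omega,
      (hv i j hi hj).1, show 2 * var i j % 2 = 0 by omega, show (2 * var i j + 1) % 2 = 1 by omega]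
    simp
  unfold okAx at hok
  simp only [force_eq] at hok
  have hi : e / 8 % 128 < 128 := Nat.mod_lt _ (by norm_num)
  have hj : e / 8 / 128 % 128 < 128 := Nat.mod_lt _ (by norm_num)
  have hk : e / 8 / 128 / 128 % 128 < 128 := Nat.mod_lt _ (by norm_num)
  generalize e / 8 % 128 = i at *
  generalize e / 8 / 128 % 128 = j at *
  generalize e / 8 / 128 / 128 % 128 = k at *
  obtain ⟨p1, p2⟩ := hp i j hi hj
  obtain ⟨q1, q2⟩ := hp j k hj hk
  obtain ⟨r1, r2⟩ := hp i k hi hk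
  have b1 := (hv i j hi hj).2
  have b2 := (hv j k hj hk).2
  have b3 := (hv i k hi hk).2
  have t1 := h.trans (pt i) (pt j) (pt k)
  have t2 : Q (pt i) (pt j) → Q (pt i) (pt k) → Q (pt j) (pt k) :=
    fun a b => h.trans _ _ _ (h.symm _ _ a) b
  have t3 : Q (pt j) (pt k) → Q (pt i) (pt k) → Q (pt i) (pt j) :=
    fun a b => h.trans _ _ _ b (h.symm _ _ a)
  split_ifs at hok
  all_goals simp only [Bool.and_eq_true, Nat.beq_eq, decide_eq_true_eq] at hok
  · obtain ⟨rfl, h0⟩ := hok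
    refine valid_cons _ _ _ (by omega) (by omega) ?_
    by_cases c1 : Q (pt i) (pt j)
    · refine Or.inr (valid_cons _ _ _ (by omega) h0 ?_)
      by_cases c2 : Q (pt j) (pt k)
      · exact Or.inr (valid1 _ _ (by omega) h0 (r1.2 (t1 c1 c2)))
      · exact Or.inl (q2.2 c2)
    · exact Or.inl (p2.2 c1)
  · obtain ⟨hl, rfl, h0⟩ := hok
    refine valid_cons _ _ _ (by omega) (by omega) ?_
    rcases (isL_sound h _ _ _ hl).2 with c | c | c
    · exact Or.inl (p1.2 c)
    · exact Or.inr (valid_cons _ _ _ (by omega) h0 (Or.inl (q1.2 c)))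
    · exact Or.inr (valid_cons _ _ _ (by omega) h0 (Or.inr (valid1 _ _ (by omega) h0 (r1.2 c))))
  · obtain ⟨hl, rfl⟩ := hok
    have := (isL_sound h _ _ _ hl).1
    refine valid_cons _ _ _ (by omega) (by omega) ?_
    by_cases c1 : Q (pt i) (pt j)
    · exact Or.inr (valid1 _ _ (by omega) (by omega) (q2.2 fun c => this ⟨c1, c⟩))
    · exact Or.inl (p2.2 c1)
  · obtain ⟨hl, rfl⟩ := hok
    have := (isL_sound h _ _ _ hl).1
    refine valid_cons _ _ _ (by omega) (by omega) ?_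
    by_cases c1 : Q (pt i) (pt j)
    · exact Or.inr (valid1 _ _ (by omega) (by omega) (r2.2 fun c => this ⟨c1, t2 c1 c⟩))
    · exact Or.inl (p2.2 c1)
  · obtain ⟨hl, rfl⟩ := hok
    have := (isL_sound h _ _ _ hl).1
    refine valid_cons _ _ _ (by omega) (by omega) ?_
    by_cases c1 : Q (pt j) (pt k)
    · exact Or.inr (valid1 _ _ (by omega) (by omega) (r2.2 fun c => this ⟨t3 c1 c, c1⟩))
    · exact Or.inl (q2.2 c1)
  · obtain ⟨hl, rfl, rfl⟩ := hok
    have := (isL_sound h _ _ _ hl).1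
    exact valid1 _ _ (by omega) (by omega) (q2.2 fun c => this ⟨h.refl _, c⟩)
  · obtain ⟨hl, rfl, rfl⟩ := hok
    have := (isL_sound h _ _ _ hl).1
    exact valid1 _ _ (by omega) (by omega) (p2.2 fun c => this ⟨c, h.symm _ _ c⟩)

set_option maxRecDepth 100000

theorem cax0 : chkAx okAx tbl ax0 0 = true := by decide +kernel
theorem cax1 : chkAx okAx tbl ax1 400 = true := by decide +kernel
theorem cax2 : chkAx okAx tbl ax2 800 = true := by decide +kernel
theorem cax3 : chkAx okAx tbl ax3 1200 = true := by decide +kernel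
theorem cax4 : chkAx okAx tbl ax4 1600 = true := by decide +kernel
theorem cax5 : chkAx okAx tbl ax5 2000 = true := by decide +kernel
theorem cax6 : chkAx okAx tbl ax6 2400 = true := by decide +kernel
theorem cax7 : chkAx okAx tbl ax7 2800 = true := by decide +kernel
theorem cst0 : chk tbl st0 3039 = true := by decide +kernel
theorem cst1 : chk tbl st1 3139 = true := by decide +kernel
theorem cst2 : chk tbl st2 3239 = true := by decide +kernel
theorem cst3 : chk tbl st3 3339 = true := by decide +kernel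
theorem cst4 : chk tbl st4 3439 = true := by decide +kernel
theorem cst5 : chk tbl st5 3539 = true := by decide +kernel
theorem cst6 : chk tbl st6 3639 = true := by decide +kernel
theorem cst7 : chk tbl st7 3739 = true := by decide +kernel
theorem cst8 : chk tbl st8 3839 = true := by decide +kernel
theorem cst9 : chk tbl st9 3939 = true := by decide +kernel
theorem cst10 : chk tbl st10 4039 = true := by decide +kernel
theorem last : tbl.get 4080 = 0 := by decide +kernel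

theorem no_boxRel {Q : Pt → Pt → Prop} (h : BoxRel Q) : False := by
  have v0 : ∀ i, i < 0 → Valid (tvQ Q) (tbl.get i) := fun i hi => absurd hi (Nat.not_lt_zero i)
  have vax0 : ∀ i, i < 400 → Valid (tvQ Q) (tbl.get i) :=
    chkAx_sound _ _ (okAx_valid h) _ _ _ cax0 v0
  have vax1 : ∀ i, i < 800 → Valid (tvQ Q) (tbl.get i) :=
    chkAx_sound _ _ (okAx_valid h) _ _ _ cax1 vax0
  have vax2 : ∀ i, i < 1200 → Valid (tvQ Q) (tbl.get i) :=
    chkAx_sound _ _ (okAx_valid h) _ _ _ cax2 vax1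
  have vax3 : ∀ i, i < 1600 → Valid (tvQ Q) (tbl.get i) :=
    chkAx_sound _ _ (okAx_valid h) _ _ _ cax3 vax2
  have vax4 : ∀ i, i < 2000 → Valid (tvQ Q) (tbl.get i) :=
    chkAx_sound _ _ (okAx_valid h) _ _ _ cax4 vax3
  have vax5 : ∀ i, i < 2400 → Valid (tvQ Q) (tbl.get i) :=
    chkAx_sound _ _ (okAx_valid h) _ _ _ cax5 vax4
  have vax6 : ∀ i, i < 2800 → Valid (tvQ Q) (tbl.get i) :=
    chkAx_sound _ _ (okAx_valid h) _ _ _ cax6 vax5
  have vax7 : ∀ i, i < 3039 → Valid (tvQ Q) (tbl.get i) :=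
    chkAx_sound _ _ (okAx_valid h) _ _ _ cax7 vax6
  have vst0 : ∀ i, i < 3139 → Valid (tvQ Q) (tbl.get i) :=
    chk_sound _ (tvQ_ex Q) _ _ _ cst0 vax7
  have vst1 : ∀ i, i < 3239 → Valid (tvQ Q) (tbl.get i) :=
    chk_sound _ (tvQ_ex Q) _ _ _ cst1 vst0
  have vst2 : ∀ i, i < 3339 → Valid (tvQ Q) (tbl.get i) :=
    chk_sound _ (tvQ_ex Q) _ _ _ cst2 vst1
  have vst3 : ∀ i, i < 3439 → Valid (tvQ Q) (tbl.get i) :=
    chk_sound _ (tvQ_ex Q) _ _ _ cst3 vst2
  have vst4 : ∀ i, i < 3539 → Valid (tvQ Q) (tbl.get i) :=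
    chk_sound _ (tvQ_ex Q) _ _ _ cst4 vst3
  have vst5 : ∀ i, i < 3639 → Valid (tvQ Q) (tbl.get i) :=
    chk_sound _ (tvQ_ex Q) _ _ _ cst5 vst4
  have vst6 : ∀ i, i < 3739 → Valid (tvQ Q) (tbl.get i) :=
    chk_sound _ (tvQ_ex Q) _ _ _ cst6 vst5
  have vst7 : ∀ i, i < 3839 → Valid (tvQ Q) (tbl.get i) :=
    chk_sound _ (tvQ_ex Q) _ _ _ cst7 vst6
  have vst8 : ∀ i, i < 3939 → Valid (tvQ Q) (tbl.get i) :=
    chk_sound _ (tvQ_ex Q) _ _ _ cst8 vst7
  have vst9 : ∀ i, i < 4039 → Valid (tvQ Q) (tbl.get i) :=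
    chk_sound _ (tvQ_ex Q) _ _ _ cst9 vst8
  have vst10 : ∀ i, i < 4081 → Valid (tvQ Q) (tbl.get i) :=
    chk_sound _ (tvQ_ex Q) _ _ _ cst10 vst9
  have := vst10 4080 (by norm_num)
  rw [last] at this
  exact not_valid_zero _ this

theorem main : ∃ n : ℕ, ∀ χ : EuclideanSpace ℝ (Fin n) → ℝ,
      ∃ a b c : EuclideanSpace ℝ (Fin n),
        dist a b = 1 ∧ dist b c = 1 ∧ dist a c = 2 ∧
        ((χ a = χ b ∧ χ b = χ c) ∨ (χ a ≠ χ b ∧ χ b ≠ χ c ∧ χ a ≠ χ c)) := by
  by_contra hcon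
  push Not at hcon
  obtain ⟨E, hE⟩ := exists_vecRel (fun n => by
    obtain ⟨χ, hχ⟩ := hcon n
    refine ⟨χ, fun a b c h1 h2 h3 => ?_⟩
    have := hχ a b c h1 h2 h3
    unfold Gd
    tauto)
  obtain ⟨S, hS⟩ := exists_wordRel hE
  obtain ⟨Q, hQ⟩ := hS.exists_boxRel
  exact no_boxRel hQ

end Pool.Agent.H42Z.Can
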