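import Pool.Agent.H42Z.CanCore

/-!
`{0,1,2}` is canonically Ramsey but not Ramsey.
-/

set_option autoImplicit false

namespace Pool.Agent.H42Z.Can

open Classical

/-- the points of the line -/
noncomputable def ln (t : ℝ) : EuclideanSpace ℝ (Fin 1) := WithLp.toLp 2 fun _ => t

theorem dist_ln (s t : ℝ) : dist (ln s) (ln t) = |s - t| := by
  rw [EuclideanSpace.dist_eq]
  simp [ln, Real.sqrt_sq_eq_abs, Real.dist_eq]

theorem ln_inj {s t : ℝ} (h : ln s = ln t) : s = t := congrFun (congrArg WithLp.ofLp h) 0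

theorem norm_rel {V : Type} [NormedAddCommGroup V] [InnerProductSpace ℝ V] (a b c : V)
    (h1 : dist a b = 1) (h2 : dist b c = 1) (h3 : dist a c = 2) :
    ‖a‖ ^ 2 + ‖c‖ ^ 2 = 2 * ‖b‖ ^ 2 + 2 := by
  rw [dist_eq_norm] at h1 h2 h3
  have p1 := parallelogram_law_with_norm ℝ (a - b) (b - c)
  have e1 : a - b + (b - c) = a - c := by abel
  rw [e1, h1, h2, h3] at p1
  have h4 : ‖a - b - (b - c)‖ = 0 := by nlinarith [norm_nonneg (a - b - (b - c))]
  have h5 : a - b = b - c := sub_eq_zero.1 (norm_eq_zero.1 h4)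
  have p2 := parallelogram_law_with_norm ℝ b (a - b)
  have e2 : b + (a - b) = a := by abel
  have e3 : b - (a - b) = c := by rw [h5]; abel
  rw [e2, e3, h1] at p2
  nlinarith

theorem not_ramsey (n : ℕ) : ∃ χ : EuclideanSpace ℝ (Fin n) → Fin 4,
    ∀ a b c, dist a b = 1 → dist b c = 1 → dist a c = 2 → ¬ (χ a = χ b ∧ χ b = χ c) := by
  refine ⟨fun x => ⟨⌊‖x‖ ^ 2⌋₊ % 4, Nat.mod_lt _ (by norm_num)⟩, ?_⟩
  rintro a b c h1 h2 h3 ⟨e1, e2⟩
  have h := norm_rel a b c h1 h2 h3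
  simp only [Fin.mk.injEq] at e1 e2
  have fa := Nat.floor_le (sq_nonneg ‖a‖)
  have fb := Nat.floor_le (sq_nonneg ‖b‖)
  have fc := Nat.floor_le (sq_nonneg ‖c‖)
  have ga := Nat.lt_floor_add_one (‖a‖ ^ 2)
  have gb := Nat.lt_floor_add_one (‖b‖ ^ 2)
  have gc := Nat.lt_floor_add_one (‖c‖ ^ 2)
  generalize ⌊‖a‖ ^ 2⌋₊ = i at *
  generalize ⌊‖b‖ ^ 2⌋₊ = j at *
  generalize ⌊‖c‖ ^ 2⌋₊ = k at *
  have l1 : (2 * j : ℝ) < i + k := by linarith
  have l2 : (i + k : ℝ) < 2 * j + 4 := by linarith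
  have l3 : 2 * j < i + k := by exact_mod_cast l1
  have l4 : i + k < 2 * j + 4 := by exact_mod_cast l2
  omega

theorem canonical_not_ramsey :
    ¬ (∀ (d : ℕ) (K : Finset (EuclideanSpace ℝ (Fin d))),
      (∃ n : ℕ, ∀ χ : EuclideanSpace ℝ (Fin n) → ℝ,
        ∃ f : EuclideanSpace ℝ (Fin d) → EuclideanSpace ℝ (Fin n),
          (∀ x ∈ K, ∀ y ∈ K, dist (f x) (f y) = dist x y) ∧
          ((∀ x ∈ K, ∀ y ∈ K, χ (f x) = χ (f y)) ∨
           (∀ x ∈ K, ∀ y ∈ K, x ≠ y → χ (f x) ≠ χ (f y)))) →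
      (∀ r : ℕ, ∃ n : ℕ, ∀ χ : EuclideanSpace ℝ (Fin n) → Fin r,
        ∃ f : EuclideanSpace ℝ (Fin d) → EuclideanSpace ℝ (Fin n),
          (∀ x ∈ K, ∀ y ∈ K, dist (f x) (f y) = dist x y) ∧
          (∀ x ∈ K, ∀ y ∈ K, χ (f x) = χ (f y)))) := by
  intro h
  have n10 : ln 1 ≠ ln 0 := fun e => by have := ln_inj e; norm_num at this
  have n20 : ln 2 ≠ ln 0 := fun e => by have := ln_inj e; norm_num at this
  have n21 : ln 2 ≠ ln 1 := fun e => by have := ln_inj e; norm_num at this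
  obtain ⟨n, hn⟩ := h 1 {ln 0, ln 1, ln 2} (by
    obtain ⟨n, hn⟩ := main
    refine ⟨n, fun χ => ?_⟩
    obtain ⟨a, b, c, h1, h2, h3, h4⟩ := hn χ
    let f : EuclideanSpace ℝ (Fin 1) → EuclideanSpace ℝ (Fin n) :=
      fun x => if x = ln 0 then a else if x = ln 1 then b else c
    have f0 : f (ln 0) = a := by simp [f]
    have f1 : f (ln 1) = b := by simp [f, n10]
    have f2 : f (ln 2) = c := by simp [f, n20, n21]
    refine ⟨f, ?_, ?_⟩
    · simp only [Finset.mem_insert, Finset.mem_singleton, forall_eq_or_imp, forall_eq, f0, f1, f2,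
        dist_ln, dist_self, h1, h2, h3, dist_comm b a, dist_comm c a, dist_comm c b]
      norm_num
    · simp only [Finset.mem_insert, Finset.mem_singleton, forall_eq_or_imp, forall_eq, f0, f1, f2]
      rcases h4 with ⟨e1, e2⟩ | ⟨e1, e2, e3⟩
      · left
        simp [e1, e2]
      · right
        simp [e1, e2, e3, e1.symm, e2.symm, e3.symm]) 4
  obtain ⟨χ, hχ⟩ := not_ramsey n
  obtain ⟨f, hf, hm⟩ := hn χ
  refine hχ (f (ln 0)) (f (ln 1)) (f (ln 2)) ?_ ?_ ?_ ⟨hm _ (by simp) _ (by simp), hm _ (by simp) _ (by simp)⟩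
  · rw [hf _ (by simp) _ (by simp), dist_ln]; norm_num
  · rw [hf _ (by simp) _ (by simp), dist_ln]; norm_num
  · rw [hf _ (by simp) _ (by simp), dist_ln]; norm_num

end Pool.Agent.H42Z.Can
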