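import Pool.Agent.H42Z.CanBasic

/-!
Part 2: reduction to a colouring of block words.
-/

set_option autoImplicit false

namespace Pool.Agent.H42Z.Can

open List Classical

/-- delete zeros -/
def strip (u : List ℤ) : List ℤ := u.filter fun a => decide (a ≠ 0)

@[simp] theorem strip_nil : strip [] = [] := rfl
@[simp] theorem strip_append (u v : List ℤ) : strip (u ++ v) = strip u ++ strip v := by
  simp [strip]
@[simp] theorem strip_zero (u : List ℤ) : strip (0 :: u) = strip u := by simp [strip]
theorem strip_cons {a : ℤ} (h : a ≠ 0) (u : List ℤ) : strip (a :: u) = a :: strip u := by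
  simp [strip, h]
@[simp] theorem strip_rep_zero (k : ℕ) : strip (replicate k 0) = [] := by simp [strip]
theorem strip_rep {a : ℤ} (h : a ≠ 0) (k : ℕ) : strip (replicate k a) = replicate k a := by
  simp [strip, h]
@[simp] theorem strip_strip (u : List ℤ) : strip (strip u) = strip u := by simp [strip]

variable {S : List ℤ → List ℤ → Prop}

theorem WordRel.strip_mid (h : WordRel S) (p : List ℤ) : ∀ r r' s s' : List ℤ, r.length = r'.length →
    (S (r ++ p ++ s) (r' ++ p ++ s') ↔ S (r ++ strip p ++ s) (r' ++ strip p ++ s')) := by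
  induction p with
  | nil => intro r r' s s' _; simp
  | cons a p ih =>
    intro r r' s s' hl
    by_cases ha : a = 0
    · subst ha
      rw [strip_zero, ← ih r r' s s' hl]
      have := h.del r r' (p ++ s) (p ++ s') hl
      simpa using this
    · rw [strip_cons ha]
      have := ih (r ++ [a]) (r' ++ [a]) s s' (by simp [hl])
      simpa using this

/-- the position of the letter `a` between `p` and `q` matters -/
def In (S : List ℤ → List ℤ → Prop) (p : List ℤ) (a : ℤ) (q : List ℤ) : Prop :=
  ¬ S (p ++ a :: 0 :: q) (p ++ 0 :: a :: q)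

theorem WordRel.in_strip (h : WordRel S) (p q : List ℤ) (a : ℤ) :
    In S p a q ↔ In S (strip p) a (strip q) := by
  unfold In
  have h1 := h.strip_mid p [] [] (a :: 0 :: q) (0 :: a :: q) rfl
  have h2 := h.strip_mid q (strip p ++ [a, 0]) (strip p ++ [0, a]) [] [] (by simp)
  simp only [nil_append, append_nil, append_assoc, cons_append] at h1 h2
  rw [h1, h2]

theorem WordRel.in_congr (h : WordRel S) {p q p' q' : List ℤ} (a : ℤ) (h1 : strip p = strip p')
    (h2 : strip q = strip q') : In S p a q ↔ In S p' a q' := by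
  rw [h.in_strip p q, h.in_strip p' q', h1, h2]

theorem WordRel.sep (h : WordRel S) {a : ℤ} {A A' B B' : List ℤ} (hl : A.length = A'.length)
    (hin : In S A' a B') : ¬ S (A ++ a :: 0 :: B) (A' ++ 0 :: a :: B') := by
  intro hs
  have h1 := (h.del (A ++ [a, 0]) (A' ++ [0, a]) B B' (by simp [hl])).2 (by simpa using hs)
  have h2 := (h.del (A ++ [a]) (A' ++ [0]) (0 :: B) (a :: B') (by simp [hl])).2 (by simpa using hs)
  simp only [append_assoc, cons_append, nil_append] at h1 h2
  have h3 := h.trans _ _ _ (h.symm _ _ h1) h2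
  exact hin ((h.del A' A' _ _ rfl).1 h3)

/-- constant columns -/
def cst (u : List ℤ) : List (ℤ × ℤ) := u.map fun a => (a, 0)

theorem cst_sub (u : List ℤ) : (cst u).map (fun c => c.1 - c.2) = u := by simp [cst, Function.comp_def]
theorem cst_add (u : List ℤ) : (cst u).map (fun c => c.1 + c.2) = u := by simp [cst, Function.comp_def]
theorem cst_fst (u : List ℤ) : (cst u).map (fun c => c.1) = u := by simp [cst, Function.comp_def]
theorem cst_sq (u : List ℤ) : ((cst u).map (fun c => c.2 ^ 2)).sum = 0 := by
  simp [cst, Function.comp_def]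

theorem WordRel.unique_aux (h : WordRel S) (p q r t : List ℤ) (a b : ℤ) (k : ℕ) (ha : a ≠ 0) (hb : b ≠ 0)
    (hk : a ^ 2 + b ^ 2 + k = 24)
    (h1 : In S p (a + a) (q ++ (b + b) :: r ++ replicate k 2 ++ t))
    (h2 : In S (p ++ (a + a) :: q) (b + b) (r ++ replicate k 2 ++ t)) : False := by
  have haa : a + a ≠ 0 := by omega
  have hbb : b + b ≠ 0 := by omega
  have key : ∀ s : ℤ, s ^ 2 = b ^ 2 →
      Gd (S (p ++ (a + a) :: 0 :: (q ++ (b + s) :: (b - s) :: (r ++ (replicate k 2 ++ replicate k 0) ++ t)))
          (p ++ a :: a :: (q ++ b :: b :: (r ++ (replicate k 1 ++ replicate k 1) ++ t))))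
        (S (p ++ a :: a :: (q ++ b :: b :: (r ++ (replicate k 1 ++ replicate k 1) ++ t)))
          (p ++ 0 :: (a + a) :: (q ++ (b - s) :: (b + s) :: (r ++ (replicate k 0 ++ replicate k 2) ++ t))))
        (S (p ++ (a + a) :: 0 :: (q ++ (b + s) :: (b - s) :: (r ++ (replicate k 2 ++ replicate k 0) ++ t)))
          (p ++ 0 :: (a + a) :: (q ++ (b - s) :: (b + s) :: (r ++ (replicate k 0 ++ replicate k 2) ++ t)))) := by
    intro s hs
    have := h.line (cst p ++ (a, -a) :: (a, a) :: (cst q ++ (b, -s) :: (b, s) ::
      (cst r ++ (replicate k (1, -1) ++ replicate k (1, 1)) ++ cst t))) (by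
        simp only [map_append, map_cons, sum_append, sum_cons, cst_sq, map_replicate, sum_replicate]
        simp only [nsmul_eq_mul]
        nlinarith)
    simp only [map_append, map_cons, cst_sub, cst_add, cst_fst, map_replicate, sub_neg_eq_add,
      sub_self, add_neg_cancel, ← sub_eq_add_neg] at this
    norm_num at this ⊢
    exact this
  have k1 := key b rfl
  have k2 := key (-b) (by ring)
  simp only [sub_self, add_neg_cancel, sub_neg_eq_add] at k1 k2
  have s2 : (2 : ℤ) ≠ 0 := by norm_num
  -- separation at the first letter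
  have sa : ∀ B B' : List ℤ, strip B' = strip (q ++ (b + b) :: r ++ replicate k 2 ++ t) →
      ¬ S (p ++ (a + a) :: 0 :: B) (p ++ 0 :: (a + a) :: B') := fun B B' hB =>
    h.sep rfl ((h.in_congr _ rfl hB).2 h1)
  have sb : ∀ A A' B B' : List ℤ, A.length = A'.length → strip A' = strip (p ++ (a + a) :: q) →
      strip B' = strip (r ++ replicate k 2 ++ t) →
      ¬ S (A ++ (b + b) :: 0 :: B) (A' ++ 0 :: (b + b) :: B') := fun A A' B B' hl hA hB =>
    h.sep hl ((h.in_congr _ hA hB).2 h2)
  have n1 := sa (q ++ (b + b) :: 0 :: (r ++ (replicate k 2 ++ replicate k 0) ++ t))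
    (q ++ 0 :: (b + b) :: (r ++ (replicate k 0 ++ replicate k 2) ++ t))
    (by simp [strip_cons hbb, strip_rep s2])
  have n2 := sa (q ++ 0 :: (b + b) :: (r ++ (replicate k 2 ++ replicate k 0) ++ t))
    (q ++ (b + b) :: 0 :: (r ++ (replicate k 0 ++ replicate k 2) ++ t))
    (by simp [strip_cons hbb, strip_rep s2])
  have n3 := sa (q ++ (b + b) :: 0 :: (r ++ (replicate k 2 ++ replicate k 0) ++ t))
    (q ++ (b + b) :: 0 :: (r ++ (replicate k 0 ++ replicate k 2) ++ t))
    (by simp [strip_cons hbb, strip_rep s2])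
  have n4 := sa (q ++ 0 :: (b + b) :: (r ++ (replicate k 2 ++ replicate k 0) ++ t))
    (q ++ 0 :: (b + b) :: (r ++ (replicate k 0 ++ replicate k 2) ++ t))
    (by simp [strip_cons hbb, strip_rep s2])
  have n5 := sb (p ++ (a + a) :: 0 :: q) (p ++ (a + a) :: 0 :: q)
    (r ++ (replicate k 2 ++ replicate k 0) ++ t) (r ++ (replicate k 2 ++ replicate k 0) ++ t) rfl
    (by simp [strip_cons haa]) (by simp [strip_rep s2])
  have n6 := sb (p ++ 0 :: (a + a) :: q) (p ++ 0 :: (a + a) :: q)
    (r ++ (replicate k 0 ++ replicate k 2) ++ t) (r ++ (replicate k 0 ++ replicate k 2) ++ t) rfl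
    (by simp [strip_cons haa]) (by simp [strip_rep s2])
  simp only [append_assoc, cons_append] at k1 k2 n1 n2 n3 n4 n5 n6
  rcases k1.2 with e1 | e1 | e1
  · rcases k2.2 with e2 | e2 | e2
    · exact n5 (h.trans _ _ _ e1 (h.symm _ _ e2))
    · exact n3 (h.trans _ _ _ e1 e2)
    · exact n2 e2
  · rcases k2.2 with e2 | e2 | e2
    · exact n4 (h.trans _ _ _ e2 e1)
    · exact n6 (h.trans _ _ _ (h.symm _ _ e2) e1)
    · exact n2 e2
  · exact n1 e1

/-- admissible letters -/
def Let (a : ℤ) : Prop := a = -2 ∨ a = 2 ∨ a = 4 ∨ a = -4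

/-- the reservoir -/
def res : List ℤ := replicate 24 2

theorem WordRel.unique (h : WordRel S) (p q r : List ℤ) (a b : ℤ) (ha : Let a) (hb : Let b)
    (h1 : In S p a (q ++ b :: r ++ res)) (h2 : In S (p ++ a :: q) b (r ++ res)) : False := by
  have hex : ∀ c, Let c → ∃ c' : ℤ, c = c' + c' ∧ c' ≠ 0 ∧ (c' ^ 2 = 1 ∨ c' ^ 2 = 4) := by
    rintro c (rfl | rfl | rfl | rfl)
    · exact ⟨-1, by norm_num⟩
    · exact ⟨1, by norm_num⟩
    · exact ⟨2, by norm_num⟩
    · exact ⟨-2, by norm_num⟩
  obtain ⟨a, rfl, ha0, ha⟩ := hex a ha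
  obtain ⟨b, rfl, hb0, hb⟩ := hex b hb
  have hk : ∃ k j : ℕ, a ^ 2 + b ^ 2 + k = 24 ∧ k + j = 24 := by
    rcases ha with ha | ha <;> rcases hb with hb | hb <;> rw [ha, hb]
    · exact ⟨22, 2, by norm_num⟩
    · exact ⟨19, 5, by norm_num⟩
    · exact ⟨19, 5, by norm_num⟩
    · exact ⟨16, 8, by norm_num⟩
  obtain ⟨k, j, hk, hj⟩ := hk
  have hr : res = replicate k 2 ++ replicate j 2 := by rw [res, ← hj, replicate_add]
  rw [hr] at h1 h2
  exact h.unique_aux p q r (replicate j 2) a b k ha0 hb0 hk (by simpa using h1) (by simpa using h2)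

/-- multiplicity vectors -/
abbrev Pt : Type := ℕ × ℕ × ℕ × ℕ

/-- block word -/
def word (x : Pt) : List ℤ :=
  replicate x.1 (-2) ++ replicate x.2.1 2 ++ replicate x.2.2.1 4 ++ replicate x.2.2.2 (-4)

theorem word_let (x : Pt) : ∀ a ∈ word x, Let a := by
  intro a ha
  simp only [word, mem_append, mem_replicate] at ha
  unfold Let
  tauto

/-- the box -/
@[irreducible] def box : Finset Pt :=
  Finset.range 100 ×ˢ Finset.range 100 ×ˢ Finset.range 100 ×ˢ Finset.range 100

theorem mem_box (a b c d : ℕ) : (a, b, c, d) ∈ box ↔ a < 100 ∧ b < 100 ∧ c < 100 ∧ d < 100 := by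
  unfold box
  simp only [Finset.mem_product, Finset.mem_range]

/-- concatenation -/
def flat (W : List Pt) : List ℤ := W.flatMap word

/-- some letter of the block `x` has a position that matters -/
def Bad (S : List ℤ → List ℤ → Prop) (α : List ℤ) (x : Pt) (β : List ℤ) : Prop :=
  ∃ w1 a w2, word x = w1 ++ a :: w2 ∧ In S (α ++ w1) a (w2 ++ β)

/-- number of bad blocks -/
noncomputable def cnt (S : List ℤ → List ℤ → Prop) : List ℤ → List Pt → ℕ
  | _, [] => 0
  | α, x :: W => (if Bad S α x (flat W ++ res) then 1 else 0) + cnt S (α ++ word x) W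

theorem WordRel.cnt_zero (h : WordRel S) : ∀ (W : List Pt) (p q : List ℤ) (a : ℤ), Let a →
    In S p a (q ++ flat W ++ res) → cnt S (p ++ a :: q) W = 0 := by
  intro W
  induction W with
  | nil => intro p q a _ _; rfl
  | cons x W ih =>
    intro p q a ha hin
    have h1 : ¬ Bad S (p ++ a :: q) x (flat W ++ res) := by
      rintro ⟨w1, b, w2, hw, hb⟩
      refine h.unique p (q ++ w1) (w2 ++ flat W) a b ha (word_let x b (by simp [hw])) ?_ ?_
      · simpa [flat, hw] using hin
      · simpa using hb
    have h2 := ih p (q ++ word x) a ha (by simpa [flat] using hin)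
    simp only [cnt, if_neg h1, zero_add]
    simpa using h2

theorem WordRel.cnt_le (h : WordRel S) : ∀ (W : List Pt) (α : List ℤ), cnt S α W ≤ 1 := by
  intro W
  induction W with
  | nil => intro α; simp [cnt]
  | cons x W ih =>
    intro α
    by_cases hb : Bad S α x (flat W ++ res)
    · obtain ⟨w1, a, w2, hw, hin⟩ := hb
      have := h.cnt_zero W (α ++ w1) w2 a (word_let x a (by simp [hw])) (by simpa using hin)
      simp only [cnt]
      rw [hw, ← append_assoc, this]
      split_ifs <;> simp
    · simp only [cnt, if_neg hb, zero_add]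
      exact ih _

/-- sum over all lists of box points of length `s` -/
def T : ℕ → (List Pt → ℕ) → ℕ
  | 0, Φ => Φ []
  | s + 1, Φ => ∑ x ∈ box, T s fun W => Φ (x :: W)

theorem T_mono : ∀ (s : ℕ) (Φ Ψ : List Pt → ℕ), (∀ W, Φ W ≤ Ψ W) → T s Φ ≤ T s Ψ := by
  intro s
  induction s with
  | zero => intro Φ Ψ h; exact h _
  | succ s ih => intro Φ Ψ h; exact Finset.sum_le_sum fun x _ => ih _ _ fun W => h _

theorem T_add : ∀ (s : ℕ) (Φ Ψ : List Pt → ℕ), T s (fun W => Φ W + Ψ W) = T s Φ + T s Ψ := by
  intro s
  induction s with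
  | zero => intro Φ Ψ; rfl
  | succ s ih =>
    intro Φ Ψ
    simp only [T]
    rw [← Finset.sum_add_distrib]
    exact Finset.sum_congr rfl fun x _ => ih _ _

theorem T_const : ∀ (s c : ℕ), T s (fun _ => c) = box.card ^ s * c := by
  intro s c
  induction s with
  | zero => simp [T]
  | succ s ih => simp only [T, ih, Finset.sum_const, smul_eq_mul]; ring

theorem T_sum (s : ℕ) (F : Finset Pt) (Φ : Pt → List Pt → ℕ) :
    T s (fun W => ∑ x ∈ F, Φ x W) = ∑ x ∈ F, T s (Φ x) := by
  induction F using Finset.induction_on with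
  | empty => simp [T_const]
  | insert x F hx ih => simp only [Finset.sum_insert hx]; rw [T_add, ih]

theorem WordRel.exists_good (h : WordRel S) : ∃ α β, ∀ x ∈ box, ¬ Bad S α x β := by
  by_contra hc
  push Not at hc
  have key : ∀ s α, s * box.card ^ s ≤ box.card * T s (cnt S α) := by
    intro s
    induction s with
    | zero => simp
    | succ s ih =>
      intro α
      simp only [T, cnt, T_add, Finset.sum_add_distrib]
      rw [← T_sum]
      have h1 : box.card ^ s * 1 ≤ T s fun W => ∑ x ∈ box, if Bad S α x (flat W ++ res) then 1 else 0 := by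
        rw [← T_const]
        refine T_mono _ _ _ fun W => ?_
        obtain ⟨x, hx, hb⟩ := hc α (flat W ++ res)
        have := Finset.single_le_sum (f := fun x => if Bad S α x (flat W ++ res) then 1 else 0)
          (fun _ _ => Nat.zero_le _) hx
        simpa only [if_pos hb] using this
      have h2 : ∑ _x ∈ box, s * box.card ^ s ≤ ∑ x ∈ box, box.card * T s (cnt S (α ++ word x)) :=
        Finset.sum_le_sum fun x _ => ih _
      rw [Finset.sum_const, smul_eq_mul, ← Finset.mul_sum] at h2
      have h3 := Nat.mul_le_mul_left box.card h1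
      rw [mul_add, pow_succ]
      nlinarith
  have h1 := key (box.card + 1) []
  have h2 : T (box.card + 1) (cnt S []) ≤ box.card ^ (box.card + 1) * 1 := by
    rw [← T_const]
    exact T_mono _ _ _ fun W => h.cnt_le W _
  have h3 : 0 < box.card := Finset.card_pos.2 ⟨(0, 0, 0, 0), by simp [mem_box]⟩
  have h4 : 0 < box.card ^ (box.card + 1) := pow_pos h3 _
  have h5 := Nat.mul_le_mul_left box.card h2
  generalize box.card ^ (box.card + 1) = N at *
  nlinarith

theorem WordRel.move_zero (h : WordRel S) {α β : List ℤ} {x : Pt} (hx : ¬ Bad S α x β) :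
    ∀ q p : List ℤ, strip (p ++ q) = word x → S (α ++ p ++ 0 :: q ++ β) (α ++ p ++ q ++ 0 :: β) := by
  intro q
  induction q with
  | nil => intro p _; simpa using h.refl _
  | cons a q ih =>
    intro p hp
    have h1 := ih (p ++ [a]) (by simpa using hp)
    refine h.trans _ _ _ ?_ (by simpa using h1)
    by_cases ha : a = 0
    · subst ha
      simpa using h.refl _
    · by_contra hcon
      apply hx
      refine ⟨strip p, a, strip q, by rw [← hp, strip_append, strip_cons ha], ?_⟩
      rw [h.in_congr (p' := α ++ p) (q' := q ++ β) a (by simp) (by simp)]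
      intro hs
      exact hcon (by simpa using h.symm _ _ hs)

theorem WordRel.normalize (h : WordRel S) {α β : List ℤ} {x : Pt} (hx : ¬ Bad S α x β) :
    ∀ (u p : List ℤ) (k : ℕ), strip (p ++ u) = word x →
      S (α ++ p ++ u ++ replicate k 0 ++ β)
        (α ++ p ++ strip u ++ replicate (k + u.length - (strip u).length) 0 ++ β) := by
  intro u
  induction u with
  | nil => intro p k _; simpa using h.refl _
  | cons a u ih =>
    intro p k hp
    by_cases ha : a = 0
    · subst ha
      have h1 := h.move_zero hx (u ++ replicate k 0) p (by simpa using hp)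
      have h2 := ih p (k + 1) (by simpa using hp)
      rw [replicate_succ'] at h2
      have e : k + (0 :: u).length = k + 1 + u.length := by simp; omega
      rw [e, strip_zero]
      exact h.trans _ _ _ (by simpa using h1) (by simpa using h2)
    · have h2 := ih (p ++ [a]) k (by simpa using hp)
      rw [strip_cons ha]
      have e : k + (a :: u).length - (a :: strip u).length = k + u.length - (strip u).length := by
        simp; omega
      rw [e]
      simpa using h2

/-- padded block word -/
def pad (x : Pt) : List ℤ := word x ++ replicate (1000 - (word x).length) 0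

/-- the finite combinatorial core: an equivalence relation on the box -/
structure BoxRel (Q : Pt → Pt → Prop) : Prop where
  refl : ∀ x, Q x x
  symm : ∀ x y, Q x y → Q y x
  trans : ∀ x y z, Q x y → Q y z → Q x z
  line : ∀ a b c d P D D' H H' : ℕ, a < 80 → b < 80 → c < 80 → d < 80 →
    P + D + D' + 4 * (H + H') = 12 → (H = 0 ∨ H' = 0) →
    Gd (Q (a, P + b, D' + c + H, H' + d) (a, b + D + D', c, d))
      (Q (a, b + D + D', c, d) (a + P, b, D + c + H', H + d))
      (Q (a, P + b, D' + c + H, H' + d) (a + P, b, D + c + H', H + d))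

theorem WordRel.exists_boxRel (h : WordRel S) : ∃ Q, BoxRel Q := by
  obtain ⟨α, β, hg⟩ := h.exists_good
  refine ⟨fun x y => S (α ++ pad x ++ β) (α ++ pad y ++ β), fun x => h.refl _,
    fun x y => h.symm _ _, fun x y z => h.trans _ _ _, ?_⟩
  intro a b c d P D D' H H' ha hb hc hd hs hH
  have norm : ∀ (x : Pt) (u : List ℤ), x ∈ box → strip u = word x → u.length = 1000 →
      S (α ++ u ++ β) (α ++ pad x ++ β) := by
    intro x u hx hu hl
    have := h.normalize (hg x hx) u [] 0 (by simpa using hu)
    rw [hu, hl] at this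
    simpa [pad] using this
  obtain ⟨e, he⟩ : ∃ e, a + P + b + D + D' + c + H + H' + d + e = 1000 :=
    Nat.exists_eq_add_of_le (by omega) |>.imp fun _ h => h.symm
  have key := h.line (cst α ++ (replicate a (-2, 0) ++ replicate P (0, -2) ++ replicate b (2, 0) ++
    replicate D (2, 2) ++ replicate D' (2, -2) ++ replicate c (4, 0) ++ replicate H (0, -4) ++
    replicate H' (0, 4) ++ replicate d (-4, 0) ++ replicate e (0, 0)) ++ cst β) (by
      simp only [map_append, sum_append, cst_sq, map_replicate, sum_replicate]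
      simp only [nsmul_eq_mul]
      have : (P : ℤ) + D + D' + 4 * (H + H') = 12 := by exact_mod_cast hs
      linarith)
  simp only [map_append, cst_sub, cst_add, cst_fst, map_replicate] at key
  norm_num only at key
  have s1 : (-2 : ℤ) ≠ 0 := by norm_num
  have s2 : (2 : ℤ) ≠ 0 := by norm_num
  have s3 : (4 : ℤ) ≠ 0 := by norm_num
  have s4 : (-4 : ℤ) ≠ 0 := by norm_num
  have nx := norm (a, P + b, D' + c + H, H' + d) (replicate a (-2) ++ replicate P 2 ++ replicate b 2 ++
    replicate D 0 ++ replicate D' 4 ++ replicate c 4 ++ replicate H 4 ++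
    replicate H' (-4) ++ replicate d (-4) ++ replicate e 0) (by rw [mem_box]; omega)
    (by
      simp only [strip_append, strip_rep s1, strip_rep s2, strip_rep s3, strip_rep s4, strip_rep_zero,
        word, append_nil, nil_append, append_assoc, replicate_add]) (by simp; omega)
  have ny := norm (a, b + D + D', c, d) (replicate a (-2) ++ replicate P 0 ++ replicate b 2 ++
    replicate D 2 ++ replicate D' 2 ++ replicate c 4 ++ replicate H 0 ++
    replicate H' 0 ++ replicate d (-4) ++ replicate e 0) (by rw [mem_box]; omega)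
    (by
      simp only [strip_append, strip_rep s1, strip_rep s2, strip_rep s3, strip_rep s4, strip_rep_zero,
        word, append_nil, nil_append, append_assoc, replicate_add]) (by simp; omega)
  have nz := norm (a + P, b, D + c + H', H + d) (replicate a (-2) ++ replicate P (-2) ++ replicate b 2 ++
    replicate D 4 ++ replicate D' 0 ++ replicate c 4 ++ replicate H (-4) ++
    replicate H' 4 ++ replicate d (-4) ++ replicate e 0) (by rw [mem_box]; omega)
    (by
      rcases hH with rfl | rfl <;>
      simp only [strip_append, strip_rep s1, strip_rep s2, strip_rep s3, strip_rep s4, strip_rep_zero,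
        word, append_nil, append_assoc, replicate_add, replicate_zero, nil_append])
    (by simp; omega)
  have tr : ∀ {u v u' v' : List ℤ}, S u u' → S v v' → (S u v ↔ S u' v') := fun h1 h2 =>
    ⟨fun k => h.trans _ _ _ (h.symm _ _ h1) (h.trans _ _ _ k h2),
      fun k => h.trans _ _ _ h1 (h.trans _ _ _ k (h.symm _ _ h2))⟩
  rw [tr nx ny, tr ny nz, tr nx nz] at key
  exact key

end Pool.Agent.H42Z.Can
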