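import Mathlib

/-!
A normal weakly Lindelof space that is not cellular-Lindelof: the product of the space of
countably-stepped two-valued functions on `omega_2 + 1` with the one-point compactification of a
discrete set of size `aleph_2`.
-/

set_option autoImplicit false

namespace Pool.Agent.H42Z.NormalWL

open Set Topology Cardinal Classical Filter MeasureTheory

theorem bdd (c : Cardinal.{0}) (hc : c.IsRegular) (S : Set c.ord.ToType) (h : #S < c) :
    ∃ b, ∀ s ∈ S, s < b := by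
  by_contra hcon
  push Not at hcon
  have h1 : IsCofinal S := fun b => hcon b
  have h2 := Order.cof_le h1
  rw [Ordinal.cof_toType, hc.cof_ord] at h2
  exact absurd h (not_lt.2 h2)

/-- `omega_2` -/
abbrev I0 : Type := (ℵ_ 2 : Cardinal.{0}).ord.ToType

/-- `omega_1` -/
abbrev J0 : Type := (ℵ_ 1 : Cardinal.{0}).ord.ToType

theorem reg2 : (ℵ_ 2 : Cardinal.{0}).IsRegular := by
  have := Cardinal.isRegular_aleph_add_one (1 : Ordinal.{0})
  rwa [one_add_one_eq_two] at this

theorem lt12 : (ℵ_ 1 : Cardinal.{0}) < ℵ_ 2 := by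
  rw [Cardinal.aleph_lt_aleph]; exact one_lt_two

theorem bddI (S : Set I0) (h : S.Countable) : ∃ b, ∀ s ∈ S, s < b :=
  bdd _ reg2 S (((le_aleph0_iff_set_countable.2 h).trans_lt aleph0_lt_aleph_one).trans lt12)

theorem bddJ (S : Set J0) (h : S.Countable) : ∃ b, ∀ s ∈ S, s < b :=
  bdd _ isRegular_aleph_one S ((le_aleph0_iff_set_countable.2 h).trans_lt aleph0_lt_aleph_one)

theorem countJ (ξ : J0) : (Iio ξ).Countable := by
  have : #(Iio ξ) < ℵ_ 1 := by simpa using mk_Iio_lt ξ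
  rw [← le_aleph0_iff_set_countable, ← lt_aleph_one_iff]
  exact this

theorem press (h : I0 → I0) : ∃ α : I0, ∀ C : Set I0, C.Countable →
    ∃ γ, h γ < α ∧ ∀ c ∈ C, c < α → c < γ := by
  have hub : ∃ ub : Set I0 → I0, ∀ S : Set I0, S.Countable → ∀ s ∈ S, s < ub S := by
    have : ∀ S : Set I0, ∃ b, S.Countable → ∀ s ∈ S, s < b := by
      intro S
      by_cases hS : S.Countable
      · obtain ⟨b, hb⟩ := bddI S hS
        exact ⟨b, fun _ => hb⟩
      · obtain ⟨b, -⟩ := bddI ∅ countable_empty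
        exact ⟨b, fun h' => absurd h' hS⟩
    choose ub hub using this
    exact ⟨ub, hub⟩
  obtain ⟨ub, hub⟩ := hub
  let F : (ξ : J0) → ((η : J0) → η < ξ → I0) → I0 := fun ξ r =>
    ub (range (fun η : Iio ξ => r η.1 η.2) ∪ range (fun η : Iio ξ => h (r η.1 η.2)))
  let s : J0 → I0 := (wellFounded_lt (α := J0)).fix F
  have hs : ∀ ξ, s ξ = ub (range (fun η : Iio ξ => s η.1) ∪ range (fun η : Iio ξ => h (s η.1))) :=
    fun ξ => (wellFounded_lt (α := J0)).fix_eq F ξ
  have hs1 : ∀ η ξ, η < ξ → s η < s ξ ∧ h (s η) < s ξ := by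
    intro η ξ hlt
    have := (countJ ξ).to_subtype
    rw [hs ξ]
    exact ⟨hub _ ((countable_range _).union (countable_range _)) _ (Or.inl ⟨⟨η, hlt⟩, rfl⟩),
      hub _ ((countable_range _).union (countable_range _)) _ (Or.inr ⟨⟨η, hlt⟩, rfl⟩)⟩
  have hb : ∃ b, ∀ t ∈ range s, t < b := by
    apply bdd _ reg2
    refine mk_range_le.trans_lt ?_
    rw [mk_ord_toType]
    exact lt12
  let α := (wellFounded_lt (α := I0)).min {b | ∀ t ∈ range s, t < b} hb
  have hα : ∀ t ∈ range s, t < α := (wellFounded_lt (α := I0)).min_mem {b | ∀ t ∈ range s, t < b} hb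
  have hα2 : ∀ c, c < α → ∃ ξ, c ≤ s ξ := by
    intro c hc
    by_contra hcon
    push Not at hcon
    refine (wellFounded_lt (α := I0)).not_lt_min {b | ∀ t ∈ range s, t < b} (x := c) ?_ hc
    rintro _ ⟨ξ, rfl⟩
    exact hcon ξ
  have : Nonempty J0 := by
    obtain ⟨b, -⟩ := bddJ ∅ countable_empty
    exact ⟨b⟩
  choose! g hg using hα2
  refine ⟨α, fun C hC => ?_⟩
  obtain ⟨ξ, hξ⟩ := bddJ (g '' C) (hC.image g)
  obtain ⟨ξ', hξ'⟩ := bddJ {ξ} (countable_singleton _)
  refine ⟨s ξ, ((hs1 ξ ξ' (hξ' ξ rfl)).2).trans (hα _ ⟨ξ', rfl⟩), fun c hc hlt => ?_⟩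
  exact (hg c hlt).trans_lt (hs1 _ _ (hξ _ ⟨c, hc, rfl⟩)).1

theorem normal_of {X ι : Type} [TopologicalSpace X] [Nonempty ι] (f : X → (ι → Bool))
    (hf : IsInducing f) (c : X → Set ι) (hc : ∀ x, (c x).Countable)
    (hlim : ∀ (u : ℕ → X) (y : ι → Bool), (∀ n, ∀ j ∈ c (u n), ∀ᶠ m in atTop, f (u m) j = y j) →
      ∃ z : X, ∀ j, ∀ᶠ m in atTop, f (u m) j = f z j) : NormalSpace X := by
  constructor
  intro F0 F1 h0 h1 hd
  have key : Disjoint (closure (f '' F0)) (closure (f '' F1)) := by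
    rw [Set.disjoint_left]
    intro y hy0 hy1
    have happ : ∀ (F : Set X), y ∈ closure (f '' F) → ∀ T : Finset ι,
        ∃ x ∈ F, ∀ j ∈ T, f x j = y j := by
      intro F hy T
      have ho : IsOpen (Set.pi (T : Set ι) (fun j => ({y j} : Set Bool))) :=
        isOpen_set_pi T.finite_toSet fun j _ => isOpen_discrete _
      obtain ⟨_, hw, x, hx, rfl⟩ := mem_closure_iff.1 hy _ ho (fun j _ => rfl)
      exact ⟨x, hx, fun j hj => hw j hj⟩
    choose g0 hg0 hg0' using happ F0 hy0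
    choose g1 hg1 hg1' using happ F1 hy1
    choose e he using fun x => countable_iff_exists_subset_range.1 (hc x)
    let T : Finset X → ℕ → Finset ι := fun s n => s.biUnion fun x => (Finset.range n).image (e x)
    let v : Finset X → ℕ → X := fun s n => if Even n then g0 (T s n) else g1 (T s n)
    let s : ℕ → Finset X := fun n => Nat.rec ∅ (fun n s => insert (v s n) s) n
    have hs : ∀ n, s (n + 1) = insert (v (s n) n) (s n) := fun n => rfl
    let u : ℕ → X := fun n => v (s n) n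
    have hmem : ∀ i m, i < m → u i ∈ s m := by
      intro i m him
      induction him with
      | refl => rw [hs]; exact Finset.mem_insert_self _ _
      | step _ ih => rw [hs]; exact Finset.mem_insert_of_mem ih
    have hagree : ∀ m, ∀ j ∈ T (s m) m, f (u m) j = y j := by
      intro m j hj
      simp only [u, v]
      split_ifs
      · exact hg0' _ j hj
      · exact hg1' _ j hj
    obtain ⟨z, hz⟩ := hlim u y (by
      intro n j hj
      obtain ⟨k, rfl⟩ := he _ hj
      filter_upwards [eventually_gt_atTop n, eventually_gt_atTop k] with m hm hk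
      apply hagree
      exact Finset.mem_biUnion.2 ⟨u n, hmem n m hm, Finset.mem_image.2 ⟨k, Finset.mem_range.2 hk, rfl⟩⟩)
    have ht : Tendsto u atTop (𝓝 z) := by
      rw [hf.tendsto_nhds_iff, tendsto_pi_nhds]
      intro j
      exact tendsto_const_nhds.congr' ((hz j).mono fun m hm => hm.symm)
    have hz0 : z ∈ F0 := by
      refine h0.mem_of_frequently_of_tendsto ?_ ht
      rw [frequently_atTop]
      intro a
      refine ⟨2 * a, by omega, ?_⟩
      simp only [u, v, even_two_mul, if_true]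
      exact hg0 _
    have hz1 : z ∈ F1 := by
      refine h1.mem_of_frequently_of_tendsto ?_ ht
      rw [frequently_atTop]
      intro a
      refine ⟨2 * a + 1, by omega, ?_⟩
      have : ¬ Even (2 * a + 1) := by simp
      simp only [u, v, this, if_false]
      exact hg1 _
    exact Set.disjoint_left.1 hd hz0 hz1
  obtain ⟨U, V, hU, hV, hU2, hV2, hUV⟩ :=
    NormalSpace.normal _ _ isClosed_closure isClosed_closure key
  exact ⟨f ⁻¹' U, f ⁻¹' V, hU.preimage hf.continuous, hV.preimage hf.continuous,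
    fun x hx => hU2 (subset_closure ⟨x, hx, rfl⟩), fun x hx => hV2 (subset_closure ⟨x, hx, rfl⟩),
    hUV.preimage f⟩

theorem wl_dense {ι : Type} (D : Set (ι → Bool)) (hD : Dense D) (W : D → Set D)
    (hW : ∀ x, W x ∈ 𝓝 x) : ∃ s : Set D, s.Countable ∧ Dense (⋃ x ∈ s, W x) := by
  have hcyl : ∀ (x : D) (N : Set D), N ∈ 𝓝 x → ∃ T : Finset ι, ∀ z : D,
      z.1 ∈ Set.pi (T : Set ι) (fun j => ({x.1 j} : Set Bool)) → z ∈ N := by
    intro x N hN
    obtain ⟨O, hO, hsub⟩ := (mem_nhds_subtype _ _ _).1 hN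
    obtain ⟨O', hO', ho, hx⟩ := mem_nhds_iff.1 hO
    obtain ⟨T, v, hv, hsub2⟩ := isOpen_pi_iff.1 ho _ hx
    refine ⟨T, fun z hz => hsub (hO' (hsub2 fun j hj => ?_))⟩
    have : z.1 j = x.1 j := hz j hj
    rw [this]
    exact (hv j hj).2
  choose T hT using fun x => hcyl x (W x) (hW x)
  let ν : Measure Bool := (PMF.uniformOfFintype Bool).toMeasure
  let μ : Measure (ι → Bool) := Measure.infinitePi fun _ => ν
  let Cyl : D → Set (ι → Bool) := fun x => Set.pi (T x : Set ι) (fun j => ({x.1 j} : Set Bool))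
  obtain ⟨E, hE, hEc, hae⟩ := Measure.exists_ae_subset_biUnion_countable μ (C := range Cyl) (by
    rintro _ ⟨x, rfl⟩
    exact MeasurableSet.pi (T x).countable_toSet fun j _ => MeasurableSet.of_discrete)
  choose p hp using fun A : E => hE A.2
  have := hEc.to_subtype
  refine ⟨range p, countable_range p, ?_⟩
  rw [dense_iff_inter_open]
  rintro O hO ⟨x, hx⟩
  obtain ⟨T', hT'⟩ := hcyl x O (hO.mem_nhds hx)
  let B : Set (ι → Bool) := Set.pi ((T' ∪ T x : Finset ι) : Set ι) (fun j => ({x.1 j} : Set Bool))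
  have hB : μ B ≠ 0 := by
    simp only [μ, B]
    rw [Measure.infinitePi_pi _ (fun j _ => MeasurableSet.of_discrete)]
    rw [Finset.prod_ne_zero_iff]
    intro j _
    simp [ν]
  have hB2 : (B ∩ ⋃₀ E).Nonempty := by
    by_contra hcon
    rw [not_nonempty_iff_eq_empty] at hcon
    apply hB
    have h1 := hae (Cyl x) ⟨x, rfl⟩
    rw [ae_le_set] at h1
    refine measure_mono_null ?_ h1
    intro z hz
    refine ⟨fun j hj => hz j (by simp [Finset.mem_coe.1 hj]), fun hz2 => ?_⟩
    have : z ∈ B ∩ ⋃₀ E := ⟨hz, hz2⟩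
    rw [hcon] at this
    exact this
  obtain ⟨z, hzB, A, hA, hzA⟩ := hB2
  have ho : IsOpen (B ∩ Cyl (p ⟨A, hA⟩)) :=
    (isOpen_set_pi (Finset.finite_toSet _) fun j _ => isOpen_discrete _).inter
      (isOpen_set_pi (Finset.finite_toSet _) fun j _ => isOpen_discrete _)
  obtain ⟨w, ⟨hw1, hw2⟩, hwD⟩ := hD.inter_open_nonempty _ ho ⟨z, hzB, by rw [hp]; exact hzA⟩
  refine ⟨⟨w, hwD⟩, hT' _ (fun j hj => hw1 j (by simp [Finset.mem_coe.1 hj])), ?_⟩
  exact mem_biUnion (mem_range_self ⟨A, hA⟩) (hT _ _ hw2)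

theorem wl_prod {K A : Type} [TopologicalSpace K] [TopologicalSpace A] [CompactSpace A]
    (hK : ∀ W : K → Set K, (∀ x, W x ∈ 𝓝 x) → ∃ s : Set K, s.Countable ∧ Dense (⋃ x ∈ s, W x))
    (𝒰 : Set (Set (K × A))) (h1 : ∀ U ∈ 𝒰, IsOpen U) (h2 : ⋃₀ 𝒰 = Set.univ) :
    ∃ 𝒱 ⊆ 𝒰, 𝒱.Countable ∧ Dense (⋃₀ 𝒱) := by
  have key : ∀ x : K, ∃ 𝒯 ⊆ 𝒰, 𝒯.Finite ∧ ∃ W ∈ 𝓝 x, W ×ˢ (Set.univ : Set A) ⊆ ⋃₀ 𝒯 := by
    intro x
    have hc : IsCompact (({x} : Set K) ×ˢ (Set.univ : Set A)) := isCompact_singleton.prod isCompact_univ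
    obtain ⟨𝒯, hsub, hfin, hcov⟩ := hc.elim_finite_subcover_image (b := 𝒰) (c := id) h1 (by
      intro z _
      have : z ∈ ⋃₀ 𝒰 := h2 ▸ mem_univ z
      obtain ⟨U, hU, hz⟩ := this
      exact mem_biUnion hU hz)
    have ho : IsOpen (⋃ U ∈ 𝒯, id U) := isOpen_biUnion fun U hU => h1 U (hsub hU)
    obtain ⟨u, v, hu, -, hxu, hv, huv⟩ := generalized_tube_lemma isCompact_singleton isCompact_univ ho hcov
    refine ⟨𝒯, hsub, hfin, u, hu.mem_nhds (hxu rfl), fun z hz => ?_⟩
    have := huv ⟨hz.1, hv (mem_univ z.2)⟩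
    rw [sUnion_eq_biUnion]
    exact this
  choose 𝒯 hsub hfin W hW hWs using key
  obtain ⟨s, hs, hd⟩ := hK W hW
  refine ⟨⋃ x ∈ s, 𝒯 x, iUnion₂_subset fun x _ => hsub x, hs.biUnion fun x _ => (hfin x).countable, ?_⟩
  refine (hd.prod dense_univ).mono ?_
  rintro z ⟨hz, -⟩
  obtain ⟨x, hx, hz2⟩ := mem_iUnion₂.1 hz
  obtain ⟨U, hU, hzU⟩ := hWs x (show z ∈ W x ×ˢ (Set.univ : Set A) from ⟨hz2, mem_univ _⟩)
  exact ⟨U, mem_biUnion hx hU, hzU⟩

/-- `omega_2 + 1` -/
abbrev I : Type := WithTop I0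

/-- `x` is constant on every interval whose half-open part misses `C` -/
def StepOn (C : Set I) (x : I → Bool) : Prop :=
  ∀ i j, i ≤ j → (∀ c ∈ C, i ≤ c → j ≤ c) → x i = x j

/-- countably stepped functions -/
def KS : Set (I → Bool) := {x | ∃ C : Set I, C.Countable ∧ StepOn C x}

/-- functions with at most one value `true` -/
def AS : Set (I → Bool) := {y | ∀ i j, y i = true → y j = true → i = j}

theorem AS_closed : IsClosed AS := by
  have : AS = ⋂ i, ⋂ j, ⋂ _ : i ≠ j, {y : I → Bool | (y i && y j) = false} := by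
    ext y
    simp only [AS, mem_ofPred_eq, mem_iInter, Bool.and_eq_false_imp]
    constructor
    · intro h i j hij hi
      by_contra hj
      exact hij (h i j hi (by simpa using hj))
    · intro h i j hi hj
      by_contra hij
      have := h i j hij hi
      rw [hj] at this
      exact absurd this (by simp)
  rw [this]
  exact isClosed_iInter fun i => isClosed_iInter fun j => isClosed_iInter fun _ =>
    isClosed_eq (by fun_prop) continuous_const

instance : CompactSpace AS := isCompact_iff_compactSpace.1 AS_closed.isCompact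

theorem KS_dense : Dense KS := by
  rw [dense_iff_inter_open]
  rintro O hO ⟨z, hz⟩
  obtain ⟨T, v, hv, hsub⟩ := isOpen_pi_iff.1 hO _ hz
  let x : I → Bool := fun i =>
    if h : (T.filter (i ≤ ·)).Nonempty then z ((T.filter (i ≤ ·)).min' h) else false
  refine ⟨x, hsub fun j hj => ?_, (T : Set I), T.countable_toSet, fun i j hij h => ?_⟩
  · have hne : (T.filter (j ≤ ·)).Nonempty := ⟨j, Finset.mem_filter.2 ⟨hj, le_rfl⟩⟩
    have hmin : (T.filter (j ≤ ·)).min' hne = j := by
      apply le_antisymm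
      · exact Finset.min'_le _ _ (Finset.mem_filter.2 ⟨hj, le_rfl⟩)
      · exact (Finset.mem_filter.1 (Finset.min'_mem _ hne)).2
    have : x j = z j := by simp only [x, dif_pos hne, hmin]
    rw [this]
    exact (hv j hj).2
  · have : T.filter (i ≤ ·) = T.filter (j ≤ ·) := by
      ext c
      simp only [Finset.mem_filter]
      exact ⟨fun hc => ⟨hc.1, h c hc.1 hc.2⟩, fun hc => ⟨hc.1, hij.trans hc.2⟩⟩
    simp only [x, this]

/-- the space -/
abbrev Sp : Type := KS × AS

theorem normal : NormalSpace Sp := by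
  let f : Sp → (I ⊕ I → Bool) := fun p => Sum.elim p.1.1 p.2.1
  have hf : IsInducing f := by
    have h1 : IsInducing (Prod.map (Subtype.val : KS → (I → Bool)) (Subtype.val : AS → (I → Bool))) :=
      IsInducing.subtypeVal.prodMap IsInducing.subtypeVal
    exact (Homeomorph.sumArrowHomeomorphProdArrow (X := Bool) (ι := I) (ι' := I)).symm.isInducing.comp h1
  choose C hC hstep using fun x : KS => x.2
  refine normal_of f hf (fun p => Sum.inl '' (C p.1 ∪ {⊤}) ∪ Sum.inr '' {i | p.2.1 i = true}) ?_ ?_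
  · intro p
    refine (((hC p.1).union (countable_singleton _)).image _).union (Set.Countable.image ?_ _)
    exact (Set.Subsingleton.finite fun i hi j hj => p.2.2 i j hi hj).countable
  · intro u y hy
    let J : Set I := ⋃ n, (C (u n).1 ∪ {⊤})
    have hJ : J.Countable := countable_iUnion fun n => (hC _).union (countable_singleton _)
    have hne : ∀ i : I, {j | j ∈ J ∧ i ≤ j}.Nonempty :=
      fun i => ⟨⊤, mem_iUnion.2 ⟨0, Or.inr rfl⟩, le_top⟩
    let r : I → I := fun i => (wellFounded_lt (α := I)).min _ (hne i)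
    have hr : ∀ i, r i ∈ J ∧ i ≤ r i := fun i => (wellFounded_lt (α := I)).min_mem _ (hne i)
    have hr2 : ∀ i c, c ∈ J → i ≤ c → r i ≤ c := fun i c hc hic =>
      not_lt.1 ((wellFounded_lt (α := I)).not_lt_min {j | j ∈ J ∧ i ≤ j} (x := c) ⟨hc, hic⟩)
    have hstepJ : ∀ m, StepOn J (u m).1.1 := fun m i j hij h =>
      hstep _ i j hij fun c hc => h c (mem_iUnion.2 ⟨m, Or.inl hc⟩)
    let x : I → Bool := fun i => y (Sum.inl (r i))
    have hx : ∀ i, ∀ᶠ m in atTop, (u m).1.1 i = x i := by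
      intro i
      obtain ⟨n, hn⟩ := mem_iUnion.1 (hr i).1
      filter_upwards [hy n (Sum.inl (r i)) (Or.inl ⟨_, hn, rfl⟩)] with m hm
      rw [hstepJ m i (r i) (hr i).2 (fun c hc hic => hr2 i c hc hic)]
      exact hm
    let w : I → Bool := fun i => if ∃ n, (u n).2.1 i = true then y (Sum.inr i) else false
    have hw : ∀ i, ∀ᶠ m in atTop, (u m).2.1 i = w i := by
      intro i
      by_cases h : ∃ n, (u n).2.1 i = true
      · simp only [w, if_pos h]
        obtain ⟨n, hn⟩ := h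
        exact hy n (Sum.inr i) (Or.inr ⟨_, hn, rfl⟩)
      · simp only [w, if_neg h]
        push Not at h
        exact Eventually.of_forall fun m => by simpa using h m
    refine ⟨(⟨x, J, hJ, fun i j hij h => ?_⟩, ⟨w, fun i j hi hj => ?_⟩), ?_⟩
    · obtain ⟨m, hm1, hm2⟩ := ((hx i).and (hx j)).exists
      rw [← hm1, ← hm2]
      exact hstepJ m i j hij h
    · obtain ⟨m, hm1, hm2⟩ := ((hw i).and (hw j)).exists
      exact (u m).2.2 i j (hm1.trans hi) (hm2.trans hj)
    · rintro (i | i)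
      · exact hx i
      · exact hw i

theorem weakly (𝒰 : Set (Set Sp)) (h1 : ∀ U ∈ 𝒰, IsOpen U) (h2 : ⋃₀ 𝒰 = Set.univ) :
    ∃ 𝒱 ⊆ 𝒰, 𝒱.Countable ∧ Dense (⋃₀ 𝒱) :=
  wl_prod (wl_dense KS KS_dense) 𝒰 h1 h2

/-- the cellular family -/
def cell (α : I0) : Set Sp := {p | p.1.1 α = true ∧ p.1.1 ⊤ = false ∧ p.2.1 α = true}

theorem open1 (i : I) (b : Bool) : IsOpen {p : Sp | p.1.1 i = b} := by
  have : Continuous fun p : Sp => p.1.1 i :=
    (continuous_apply i).comp (continuous_subtype_val.comp continuous_fst)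
  exact (isOpen_discrete {b}).preimage this

theorem closed1 (i : I) (b : Bool) : IsClosed {p : Sp | p.1.1 i = b} :=
  isClosed_eq ((continuous_apply i).comp (continuous_subtype_val.comp continuous_fst)) continuous_const

theorem open2 (i : I) (b : Bool) : IsOpen {p : Sp | p.2.1 i = b} := by
  have : Continuous fun p : Sp => p.2.1 i :=
    (continuous_apply i).comp (continuous_subtype_val.comp continuous_snd)
  exact (isOpen_discrete {b}).preimage this

theorem not_cellular : ∃ 𝒰 : Set (Set Sp), (∀ U ∈ 𝒰, IsOpen U ∧ U.Nonempty) ∧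
    𝒰.PairwiseDisjoint id ∧ ∀ L : Set Sp, IsLindelof L → ∃ U ∈ 𝒰, Disjoint U L := by
  refine ⟨range cell, ?_, ?_, ?_⟩
  · rintro _ ⟨α, rfl⟩
    refine ⟨(open1 _ _).inter ((open1 _ _).inter (open2 _ _)), ?_⟩
    refine ⟨(⟨fun i => decide (i ≤ (α : I)), {(α : I)}, countable_singleton _, ?_⟩,
      ⟨fun i => decide (i = (α : I)), ?_⟩), ?_, ?_, ?_⟩
    · intro i j hij h
      simp only [decide_eq_decide]
      exact ⟨h _ rfl, fun hj => hij.trans hj⟩
    · intro i j hi hj
      simp only [decide_eq_true_eq] at hi hj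
      rw [hi, hj]
    · simp
    · simp
    · simp
  · rintro _ ⟨α, rfl⟩ _ ⟨β, rfl⟩ hne
    refine Set.disjoint_left.2 fun p hp hq => hne ?_
    have := p.2.2 _ _ hp.2.2 hq.2.2
    rw [WithTop.coe_inj.1 this]
  · intro L hL
    by_contra hcon
    push Not at hcon
    have hex : ∀ α : I0, ∃ p, p ∈ cell α ∧ p ∈ L := fun α =>
      Set.not_disjoint_iff.1 (hcon _ ⟨α, rfl⟩)
    choose p hp hpL using hex
    choose C hC hstep using fun x : KS => x.2
    have hcount : ∀ x : KS, ((↑) ⁻¹' (C x) : Set I0).Countable :=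
      fun x => (hC x).preimage WithTop.coe_injective
    have hγ : ∃ γ : I0, ∀ b : I0, ∃ α, b < α ∧ ∀ β : I0, γ < β → β ≤ α → (p α).1.1 β = true := by
      by_contra hcon2
      push Not at hcon2
      choose h hh using hcon2
      obtain ⟨α, hα⟩ := press h
      obtain ⟨γ, h1, h2⟩ := hα _ (hcount (p α).1)
      obtain ⟨β, hβ1, hβ2, hβ3⟩ := hh γ α h1
      apply hβ3
      rw [hstep (p α).1 β α (WithTop.coe_le_coe.2 hβ2) ?_]
      · exact (hp α).1
      · intro c hc hβc
        by_contra hlt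
        push Not at hlt
        lift c to I0 using ne_top_of_lt hlt
        have := h2 c hc (WithTop.coe_lt_coe.1 hlt)
        exact absurd (this.trans hβ1) (not_lt.2 (WithTop.coe_le_coe.1 hβc))
    obtain ⟨γ, hγ⟩ := hγ
    have hL2 : IsLindelof (L ∩ {q : Sp | q.1.1 ⊤ = false}) := hL.inter_right (closed1 _ _)
    obtain ⟨r, hr, hcov⟩ := hL2.elim_countable_subcover
      (fun β : Ioi γ => {q : Sp | q.1.1 (β.1 : I) = false}) (fun β => open1 _ _) (by
        rintro q ⟨-, hq⟩
        obtain ⟨b, hb⟩ := bddI _ ((hcount q.1).union (countable_singleton γ))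
        refine mem_iUnion.2 ⟨⟨b, hb γ (Or.inr rfl)⟩, ?_⟩
        show q.1.1 (b : I) = false
        rw [hstep q.1 b ⊤ le_top ?_]
        · exact hq
        · intro c hc hbc
          by_contra hlt
          push Not at hlt
          lift c to I0 using ne_top_of_lt hlt
          exact absurd (hb c (Or.inl hc)) (not_lt.2 (WithTop.coe_le_coe.1 hbc)))
    obtain ⟨b, hb⟩ := bddI _ (hr.image Subtype.val)
    obtain ⟨α, hα1, hα2⟩ := hγ b
    obtain ⟨β, hβ, hq⟩ := mem_iUnion₂.1 (hcov ⟨hpL α, (hp α).2.1⟩)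
    have h1 := hα2 β.1 β.2 ((hb _ ⟨β, hβ, rfl⟩).trans hα1).le
    have h2 : (p α).1.1 (β.1 : I) = false := hq
    rw [h1] at h2
    exact absurd h2 (by simp)

end Pool.Agent.H42Z.NormalWL
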