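import Mathlib

/-!
A kernel-friendly checker for reverse unit propagation with a static clause table.
Clauses are numbers whose digits in base `32768` are literals; hints are digits in base `8192`.
-/

set_option autoImplicit false

namespace Pool.Agent.H42Z.Rup

/-- evaluate `v` before passing it on -/
def force {α : Type} (v : ℕ) (k : ℕ → α) : α := Nat.casesOn v (k 0) (fun n => k (Nat.succ n))

theorem force_eq {α : Type} (v : ℕ) (k : ℕ → α) : force v k = k v := by cases v <;> rfl

/-- binary trie -/
inductive Tr where
  | leaf (c : ℕ) : Tr
  | node (l r : Tr) : Tr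

/-- lookup -/
noncomputable def Tr.get (t : Tr) : ℕ → ℕ :=
  Tr.rec (motive := fun _ => ℕ → ℕ) (fun c _ => c)
    (fun _ _ fl fr i => Bool.rec (motive := fun _ => ℕ) (fr (Nat.div i 2)) (fl (Nat.div i 2))
      (Nat.beq (Nat.mod i 2) 0)) t

/-- some literal of the clause is true -/
inductive Valid (tv : ℕ → Prop) : ℕ → Prop
  | here (c : ℕ) : c ≠ 0 → tv (c % 32768) → Valid tv c
  | there (c : ℕ) : Valid tv (c / 32768) → Valid tv c

theorem not_valid_zero (tv : ℕ → Prop) : ¬ Valid tv 0 := by
  have : ∀ c, Valid tv c → c ≠ 0 := by
    intro c h
    induction h with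
    | here c h _ => exact h
    | there c _ ih => rintro rfl; simp at ih
  exact fun h => this 0 h rfl

/-- scan a clause: `0` all false, `1` failure, `l + 2` unit literal `l` -/
noncomputable def scan (F : ℕ) (f : ℕ) : ℕ → ℕ → ℕ :=
  Nat.rec (motive := fun _ => ℕ → ℕ → ℕ) (fun _ _ => 1)
    (fun _ r c acc => Bool.rec (motive := fun _ => ℕ)
      (force (Nat.div c 32768) fun c' =>
        Bool.rec (motive := fun _ => ℕ)
          (Bool.rec (motive := fun _ => ℕ) 1 (r c' (Nat.add (Nat.mod c 32768) 2)) (Nat.beq acc 0))
          (r c' acc) (Nat.beq (Nat.mod (Nat.shiftRight F (Nat.mod c 32768)) 2) 1))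
      acc (Nat.beq c 0)) f

theorem scan_succ (F f c acc : ℕ) : scan F (f + 1) c acc =
    if c = 0 then acc else if F.testBit (c % 32768) then scan F f (c / 32768) acc
    else if acc = 0 then scan F f (c / 32768) (c % 32768 + 2) else 1 := by
  have e : ∀ a b : ℕ, Nat.beq a b = decide (a = b) := fun a b => by
    rw [Bool.eq_iff_iff]; simp
  have e2 : F.testBit (c % 32768) = decide (Nat.mod (Nat.shiftRight F (Nat.mod c 32768)) 2 = 1) := by
    rw [Nat.testBit_eq_decide_div_mod_eq]
    change _ = decide (F >>> (c % 32768) % 2 = 1)
    rw [Nat.shiftRight_eq_div_pow]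
  change Bool.rec (motive := fun _ => ℕ)
      (force (Nat.div c 32768) fun c' =>
        Bool.rec (motive := fun _ => ℕ)
          (Bool.rec (motive := fun _ => ℕ) 1 (scan F f c' (Nat.add (Nat.mod c 32768) 2)) (Nat.beq acc 0))
          (scan F f c' acc) (Nat.beq (Nat.mod (Nat.shiftRight F (Nat.mod c 32768)) 2) 1))
      acc (Nat.beq c 0) = _
  rw [force_eq, e, e, e, e2]
  by_cases h1 : c = 0
  · simp [h1]
  · by_cases h2 : Nat.mod (Nat.shiftRight F (Nat.mod c 32768)) 2 = 1
    · simp only [h1, h2, decide_true, decide_false, if_true, if_false]; rfl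
    · by_cases h3 : acc = 0
      · simp only [h1, h2, h3, decide_true, decide_false, if_true, if_false, Bool.false_eq_true]; rfl
      · simp only [h1, h2, h3, decide_false, if_false, Bool.false_eq_true]

theorem scan_sound (tv : ℕ → Prop) (F : ℕ) (hF : ∀ l, F.testBit l = true → ¬ tv l) :
    ∀ f c acc, (Valid tv c ∨ (2 ≤ acc ∧ tv (acc - 2))) →
      scan F f c acc = 1 ∨ (2 ≤ scan F f c acc ∧ tv (scan F f c acc - 2)) := by
  intro f
  induction f with
  | zero => intro c acc _; exact Or.inl rfl
  | succ f ih =>
    intro c acc h
    rw [scan_succ]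
    split_ifs with h1 h2 h3
    · subst h1
      exact Or.inr (h.resolve_left (not_valid_zero tv))
    · apply ih
      rcases h with h | h
      · cases h with
        | here _ _ h => exact absurd h (hF _ h2)
        | there _ h => exact Or.inl h
      · exact Or.inr h
    · apply ih
      rcases h with h | h
      · cases h with
        | here _ _ h => exact Or.inr ⟨by omega, by simpa using h⟩
        | there _ h => exact Or.inl h
      · omega
    · exact Or.inl rfl

/-- negation of a literal -/
def neg (l : ℕ) : ℕ := Nat.sub (Nat.add l 1) (Nat.mul 2 (Nat.mod l 2))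

/-- unit propagation along the hints, all below `k` -/
noncomputable def rup (t : Tr) (k f : ℕ) : ℕ → ℕ → Bool :=
  Nat.rec (motive := fun _ => ℕ → ℕ → Bool) (fun _ _ => false)
    (fun _ r hs F => force (Nat.mod hs 8192) fun h =>
      Bool.rec (motive := fun _ => Bool) false
        (force (t.get h) fun c => force (scan F 100 c 0) fun s =>
          Nat.casesOn (motive := fun _ => Bool) s true fun s' =>
            Nat.casesOn (motive := fun _ => Bool) s' false fun l =>
              force (Nat.div hs 8192) fun hs' =>
                force (Nat.lor F (Nat.shiftLeft 1 (neg l))) fun F' => r hs' F')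
        (Nat.blt h k)) f

theorem rup_sound (tv : ℕ → Prop) (hex : ∀ l, tv l → ¬ tv (neg l)) (t : Tr) (k : ℕ)
    (ht : ∀ i, i < k → Valid tv (t.get i)) :
    ∀ f hs F, rup t k f hs F = true → (∀ l, F.testBit l = true → ¬ tv l) → False := by
  intro f
  induction f with
  | zero => intro hs F h; exact absurd h (by simp [rup])
  | succ f ih =>
    intro hs F h hF
    change (force (Nat.mod hs 8192) fun h =>
      Bool.rec (motive := fun _ => Bool) false
        (force (t.get h) fun c => force (scan F 100 c 0) fun s =>
          Nat.casesOn (motive := fun _ => Bool) s true fun s' =>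
            Nat.casesOn (motive := fun _ => Bool) s' false fun l =>
              force (Nat.div hs 8192) fun hs' =>
                force (Nat.lor F (Nat.shiftLeft 1 (neg l))) fun F' => rup t k f hs' F')
        (Nat.blt h k)) = true at h
    simp only [force_eq] at h
    generalize Nat.mod hs 8192 = i at h
    cases hb : Nat.blt i k with
    | false => rw [hb] at h; exact absurd h (by simp)
    | true =>
      rw [hb] at h
      have hv := scan_sound tv F hF 100 (t.get i) 0 (Or.inl (ht i (by simpa using hb)))
      generalize scan F 100 (t.get i) 0 = s at h hv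
      rcases s with _ | _ | l
      · omega
      · exact absurd h (by simp)
      · refine ih _ _ h ?_
        intro m hm
        change (F ||| 1 <<< neg l).testBit m = true at hm
        rw [Nat.testBit_lor, Bool.or_eq_true, Nat.one_shiftLeft, Nat.testBit_two_pow] at hm
        rcases hm with hm | hm
        · exact hF m hm
        · have hl : tv l := by
            rcases hv with hv | hv
            · omega
            · simpa using hv.2
          rw [← of_decide_eq_true hm]
          exact hex l hl

/-- the set of literals of a clause -/
noncomputable def maskOf (f : ℕ) : ℕ → ℕ :=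
  Nat.rec (motive := fun _ => ℕ → ℕ) (fun _ => 0)
    (fun _ r c => Bool.rec (motive := fun _ => ℕ)
      (force (Nat.div c 32768) fun c' => Nat.lor (Nat.shiftLeft 1 (Nat.mod c 32768)) (r c')) 0
      (Nat.beq c 0)) f

theorem maskOf_sound (tv : ℕ → Prop) : ∀ f c, ¬ Valid tv c →
    ∀ l, (maskOf f c).testBit l = true → ¬ tv l := by
  intro f
  induction f with
  | zero => intro c _ l h; exact absurd h (by simp [maskOf])
  | succ f ih =>
    intro c hc l h
    change Nat.testBit (Bool.rec (motive := fun _ => ℕ)
      (force (Nat.div c 32768) fun c' => Nat.lor (Nat.shiftLeft 1 (Nat.mod c 32768)) (maskOf f c')) 0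
      (Nat.beq c 0)) l = true at h
    cases hb : Nat.beq c 0 with
    | true => rw [hb] at h; exact absurd h (by simp)
    | false =>
      rw [hb, force_eq] at h
      change (1 <<< (c % 32768) ||| maskOf f (c / 32768)).testBit l = true at h
      rw [Nat.testBit_lor, Bool.or_eq_true, Nat.one_shiftLeft, Nat.testBit_two_pow] at h
      rcases h with h | h
      · rw [← of_decide_eq_true h]
        exact fun ht => hc (Valid.here c (Nat.ne_of_beq_eq_false hb) ht)
      · exact ih _ (fun hv => hc (Valid.there c hv)) l h

/-- check consecutive steps -/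
noncomputable def chk (t : Tr) (l : List ℕ) : ℕ → Bool :=
  List.rec (motive := fun _ => ℕ → Bool) (fun _ => true)
    (fun hs _ r k => Bool.rec (motive := fun _ => Bool) false (force (Nat.succ k) r)
      (force (t.get k) fun c => force (maskOf 100 c) fun F => rup t k 1000 hs F)) l

theorem chk_sound (tv : ℕ → Prop) (hex : ∀ l, tv l → ¬ tv (neg l)) (t : Tr) :
    ∀ (l : List ℕ) (k : ℕ), chk t l k = true → (∀ i, i < k → Valid tv (t.get i)) →
      ∀ i, i < k + l.length → Valid tv (t.get i) := by
  intro l
  induction l with
  | nil => intro k _ h; exact h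
  | cons hs l ih =>
    intro k h ht
    change Bool.rec (motive := fun _ => Bool) false (force (Nat.succ k) (chk t l))
      (force (t.get k) fun c => force (maskOf 100 c) fun F => rup t k 1000 hs F) = true at h
    simp only [force_eq] at h
    cases hb : rup t k 1000 hs (maskOf 100 (t.get k)) with
    | false => rw [hb] at h; exact absurd h (by simp)
    | true =>
      rw [hb] at h
      have hk : Valid tv (t.get k) := by
        by_contra hc
        exact rup_sound tv hex t k ht _ _ _ hb (maskOf_sound tv _ _ hc)
      intro i hi
      refine ih (k + 1) h (fun j hj => ?_) i (by simp at hi; omega)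
      rcases Nat.lt_succ_iff_lt_or_eq.1 hj with hj | rfl
      · exact ht j hj
      · exact hk

/-- check consecutive axioms against a test `ok descriptor clause` -/
noncomputable def chkAx (ok : ℕ → ℕ → Bool) (t : Tr) (l : List ℕ) : ℕ → Bool :=
  List.rec (motive := fun _ => ℕ → Bool) (fun _ => true)
    (fun e _ r k => Bool.rec (motive := fun _ => Bool) false (force (Nat.succ k) r)
      (force (t.get k) fun c => ok e c)) l

theorem chkAx_sound (tv : ℕ → Prop) (ok : ℕ → ℕ → Bool) (hok : ∀ e c, ok e c = true → Valid tv c)
    (t : Tr) : ∀ (l : List ℕ) (k : ℕ), chkAx ok t l k = true → (∀ i, i < k → Valid tv (t.get i)) →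
      ∀ i, i < k + l.length → Valid tv (t.get i) := by
  intro l
  induction l with
  | nil => intro k _ h; exact h
  | cons e l ih =>
    intro k h ht
    change Bool.rec (motive := fun _ => Bool) false (force (Nat.succ k) (chkAx ok t l))
      (force (t.get k) fun c => ok e c) = true at h
    simp only [force_eq] at h
    cases hb : ok e (t.get k) with
    | false => rw [hb] at h; exact absurd h (by simp)
    | true =>
      rw [hb] at h
      intro i hi
      refine ih (k + 1) h (fun j hj => ?_) i (by simp at hi; omega)
      rcases Nat.lt_succ_iff_lt_or_eq.1 hj with hj | rfl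
      · exact ht j hj
      · exact hok _ _ hb

end Pool.Agent.H42Z.Rup
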